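import Pool.Agent.helper77.SK.Spec

/-! Row sk:ARM: arithmetic for subgroups of index `m ≥ 3`. -/

set_option autoImplicit false

namespace Pool.Agent.SK

def ARM_al {K : Type*} [CommRing K] (s c : K) : K :=
  2 * s ^ 5 * c - 2 * s ^ 5 + 13 * s ^ 4 * c ^ 2 - 23 * s ^ 4 * c + 4 * s ^ 4
  + 35 * s ^ 3 * c ^ 3 - 91 * s ^ 3 * c ^ 2 + 20 * s ^ 3 * c + 6 * s ^ 3
  + 42 * s ^ 2 * c ^ 4 - 150 * s ^ 2 * c ^ 3 + 25 * s ^ 2 * c ^ 2 + 57 * s ^ 2 * c
  - 16 * s ^ 2 + 18 * s * c ^ 5 - 95 * s * c ^ 4 - 38 * s * c ^ 3 + 175 * s * c ^ 2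
  - 80 * s * c + 8 * s - 12 * c ^ 5 - 64 * c ^ 4 + 168 * c ^ 3 - 116 * c ^ 2 + 24 * c

def ARM_be {K : Type*} [CommRing K] (s c : K) : K :=
  - 2 * s ^ 4 * c + 2 * s ^ 4 - 13 * s ^ 3 * c ^ 2 + 23 * s ^ 3 * c - 4 * s ^ 3
  - 35 * s ^ 2 * c ^ 3 + 89 * s ^ 2 * c ^ 2 - 30 * s ^ 2 * c + 6 * s ^ 2 - 42 * s * c ^ 4
  + 137 * s * c ^ 3 - 66 * s * c ^ 2 + 3 * s * c + 4 * s - 18 * c ^ 5 + 72 * c ^ 4
  - 36 * c ^ 3 - 28 * c ^ 2 + 18 * c - 8

def ARM_Q8 {K : Type*} [CommRing K] (c : K) : K :=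
  9 * c ^ 8 - 24 * c ^ 7 + 107 * c ^ 6 - 467 * c ^ 5 + 1086 * c ^ 4 - 1427 * c ^ 3
    + 1172 * c ^ 2 - 564 * c + 144

def ARM_Q6 {K : Type*} [CommRing K] (c : K) : K :=
  81 * c ^ 6 - 531 * c ^ 5 + 1417 * c ^ 4 - 1786 * c ^ 3 + 828 * c ^ 2 - 121 * c + 4

theorem ARM_TT {K : Type*} [CommRing K] (N M : K) :
    TT N M = ARM_al (N + M) (N * M) + ARM_be (N + M) (N * M) * N := by
  unfold TT ARM_al ARM_be
  ring

theorem ARM_cert {K : Type*} [CommRing K] (s c : K) :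
    ((144 * c ^ 14 + 432 * c ^ 13 - 2580 * c ^ 12 + 9184 * c ^ 11 - 53940 * c ^ 10
      + 207344 * c ^ 9 - 474636 * c ^ 8 + 721268 * c ^ 7 - 779012 * c ^ 6 + 612332 * c ^ 5
      - 347432 * c ^ 4 + 135984 * c ^ 3 - 32544 * c ^ 2 + 3456 * c)
      + (228 * c ^ 13 - 104 * c ^ 12 + 311 * c ^ 11 - 3081 * c ^ 10 - 9841 * c ^ 9
      + 78716 * c ^ 8 - 194841 * c ^ 7 + 282551 * c ^ 6 - 280273 * c ^ 5 + 199026 * c ^ 4
      - 100004 * c ^ 3 + 33000 * c ^ 2 - 5472 * c) * s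
      + (48 * c ^ 12 + 88 * c ^ 11 - 430 * c ^ 10 + 1286 * c ^ 9 - 10174 * c ^ 8
      + 40548 * c ^ 7 - 87090 * c ^ 6 + 119658 * c ^ 5 - 114170 * c ^ 4 + 77332 * c ^ 3
      - 36456 * c ^ 2 + 11088 * c - 1728) * s ^ 2)
      * ARM_be s c
    + ((- 216 * c ^ 14 + 1440 * c ^ 13 - 5298 * c ^ 12 + 22506 * c ^ 11 - 77376 * c ^ 10
      + 168986 * c ^ 9 - 235140 * c ^ 8 + 210982 * c ^ 7 - 103500 * c ^ 6 - 11834 * c ^ 5
      + 66146 * c ^ 4 - 58208 * c ^ 3 + 28232 * c ^ 2 - 7872 * c + 1152)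
      + (- 432 * c ^ 13 + 2532 * c ^ 12 - 9528 * c ^ 11 + 41059 * c ^ 10 - 136623 * c ^ 9
      + 295541 * c ^ 8 - 432118 * c ^ 7 + 455611 * c ^ 6 - 356727 * c ^ 5 + 207705 * c ^ 4
      - 87736 * c ^ 3 + 25300 * c ^ 2 - 4512 * c + 576) * s
      + (- 228 * c ^ 12 + 1136 * c ^ 11 - 4287 * c ^ 10 + 18565 * c ^ 9 - 58759 * c ^ 8
      + 119840 * c ^ 7 - 165459 * c ^ 6 + 163465 * c ^ 5 - 117611 * c ^ 4 + 60758 * c ^ 3
      - 21260 * c ^ 2 + 4344 * c - 288) * s ^ 2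
      + (- 48 * c ^ 11 + 200 * c ^ 10 - 770 * c ^ 9 + 3334 * c ^ 8 - 9830 * c ^ 7
      + 18432 * c ^ 6 - 23502 * c ^ 5 + 21354 * c ^ 4 - 13954 * c ^ 3 + 6392 * c ^ 2
      - 1896 * c + 288) * s ^ 3)
      * (ARM_al s c + s * ARM_be s c)
    = -24 * c ^ 3 * (c - 1) ^ 3 * (c - 2) ^ 2 * (2 * c + 1) ^ 2 * ARM_Q8 c := by
  unfold ARM_al ARM_be ARM_Q8
  ring

theorem ARM_diag {K : Type*} [CommRing K] (N c : K) (h : N * N = c) :
    TT N N = (72 * c ^ 5 - 286 * c ^ 4 - 48 * c ^ 3 + 150 * c ^ 2 - 32 * c)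
      + (18 * c ^ 5 + 22 * c ^ 4 - 452 * c ^ 3 + 330 * c ^ 2 - 70 * c + 8) * N := by
  subst h
  unfold TT
  ring

theorem ARM_diag2 {K : Type*} [CommRing K] (c : K) :
    (72 * c ^ 5 - 286 * c ^ 4 - 48 * c ^ 3 + 150 * c ^ 2 - 32 * c) ^ 2
    - c * (18 * c ^ 5 + 22 * c ^ 4 - 452 * c ^ 3 + 330 * c ^ 2 - 70 * c + 8) ^ 2
    = -4 * (c * (c - 1) ^ 3 * (c - 4) * ARM_Q6 c) := by
  unfold ARM_Q6
  ring

theorem ARM_L {K : Type*} [CommRing K] (N M : K) (h1 : L1 N M = 0) (h2 : L2 N M = 0) :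
    (N * M - 1) * ((N * M) * (N * M - 1) * (N * M - 2) * (2 * (N * M) + 1)) * 24 = 0 := by
  have e1 : M ^ 2 + (2 * (N * M) + 1) * M + (4 * (N * M) - 2) = L1 N M + M ^ 2 * L2 N M := by
    unfold L1 L2; ring
  have e2 : (N * M - 1) * (2 * M ^ 3 + 3 * (N * M - 1) * M ^ 2 - (N * M + 1) * M
      - 2 * (N * M - 1)) = L1 N M := by
    unfold L1; ring
  rw [h1, h2] at e1
  rw [h1] at e2
  generalize N * M = c at e1 e2 ⊢
  linear_combination (-(c - 1) * ((- 14 * c ^ 3 + 24 * c ^ 2 + 6 * c - 16)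
    + (6 * c ^ 3 - 8 * c ^ 2 - 14 * c - 8) * M + (4 * c ^ 2 + 4 * c + 16) * M ^ 2)) * e1
    + (-((- 4 * c ^ 3 - 2 * c ^ 2 - 2 * c - 16) + (- 2 * c ^ 2 - 2 * c - 8) * M)) * e2

theorem ARM_size8 {m : ℕ} (hm : 3 ≤ m) : 144 * m ^ 8 + 564 * m ^ 7 + 1172 * m ^ 6 + 1427 * m ^ 5
    + 1086 * m ^ 4 + 467 * m ^ 3 + 107 * m ^ 2 + 24 * m + 9 ≤ 600 * m ^ 8 := by
  obtain ⟨k, rfl⟩ := Nat.exists_eq_add_of_le hm
  refine Nat.le.intro (k := 456 * k ^ 8 + 10380 * k ^ 7 + 101896 * k ^ 6 + 560353 * k ^ 5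
    + 1871829 * k ^ 4 + 3831499 * k ^ 3 + 4557556 * k ^ 2 + 2682810 * k + 455580) ?_
  ring

theorem ARM_size6 {m : ℕ} (hm : 3 ≤ m) : 4 * m ^ 6 + 121 * m ^ 5 + 828 * m ^ 4 + 1786 * m ^ 3
    + 1417 * m ^ 2 + 531 * m + 81 ≤ 600 * m ^ 8 := by
  obtain ⟨k, rfl⟩ := Nat.exists_eq_add_of_le hm
  refine Nat.le.intro (k := 600 * k ^ 8 + 14400 * k ^ 7 + 151196 * k ^ 6 + 907007 * k ^ 5
    + 3398817 * k ^ 4 + 8140028 * k ^ 3 + 12147467 * k ^ 2 + 10296084 * k + 3774564) ?_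
  ring

theorem ARM_ne {p : ℕ} [Fact p.Prime] {k : ℕ} (h0 : 0 < k) (h : k < p) : (k : ZMod p) ≠ 0 := by
  intro h1
  rw [ZMod.natCast_eq_zero_iff] at h1
  exact absurd (Nat.le_of_dvd h0 h1) (by omega)

theorem ARM : ARM_stmt := by
  intro p _ m N M hm hN hM hp hC1 hC2
  by_contra hlt
  rw [not_le] at hlt
  have hNM : 4 ≤ N * M := by nlinarith
  have hpm : 4 * m + 1 ≤ p := by nlinarith
  have hmp : m < p := by omega
  have hm0 : (m : ZMod p) ≠ 0 := ARM_ne (by omega) hmp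
  have hbig : 5000 < p := by
    have : 3 ^ 8 ≤ m ^ 8 := Nat.pow_le_pow_left hm 8
    omega
  have h2 : (2 : ZMod p) ≠ 0 := by exact_mod_cast ARM_ne (p := p) (k := 2) (by norm_num) (by omega)
  have h24 : (24 : ZMod p) ≠ 0 := by
    exact_mod_cast ARM_ne (p := p) (k := 24) (by norm_num) (by omega)
  have h4 : (4 : ZMod p) ≠ 0 := by
    exact_mod_cast ARM_ne (p := p) (k := 4) (by norm_num) (by omega)
  set x : ZMod p := (N : ZMod p) with hx
  set y : ZMod p := (M : ZMod p) with hy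
  have hmc : (m : ZMod p) * (x * y) = -1 := by
    have h : ((m * (N * M) + 1 : ℕ) : ZMod p) = 0 := by rw [hp]; exact ZMod.natCast_self p
    push_cast at h
    linear_combination h
  -- the nonzero factors
  have hc0 : x * y ≠ 0 := by
    intro h
    rw [h, mul_zero] at hmc
    exact one_ne_zero (α := ZMod p) (by linear_combination hmc)
  have hc1 : x * y - 1 ≠ 0 := by
    intro h
    have h1 : ((m + 1 : ℕ) : ZMod p) = 0 := by
      push_cast
      linear_combination hmc - (m : ZMod p) * h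
    exact ARM_ne (by omega) (by omega) h1
  have hc2 : x * y - 2 ≠ 0 := by
    intro h
    have h1 : ((2 * m + 1 : ℕ) : ZMod p) = 0 := by
      push_cast
      linear_combination hmc - (m : ZMod p) * h
    exact ARM_ne (by omega) (by omega) h1
  have hc3 : 2 * (x * y) + 1 ≠ 0 := by
    intro h
    have h1 : ((m - 2 : ℕ) : ZMod p) = 0 := by
      rw [Nat.cast_sub (by omega)]
      push_cast
      linear_combination (m : ZMod p) * h - 2 * hmc
    exact ARM_ne (by omega) (by omega) h1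
  have hL : ∀ a b : ZMod p, a * b = x * y → ¬ (L1 a b = 0 ∧ L2 a b = 0) := by
    rintro a b hab ⟨h1, h2'⟩
    have h := ARM_L a b h1 h2'
    rw [hab] at h
    exact mul_ne_zero (mul_ne_zero hc1 (mul_ne_zero (mul_ne_zero (mul_ne_zero hc0 hc1) hc2) hc3))
      h24 h
  have hT1 : TT x y = 0 := by
    rcases hC1 with h | h
    · exact h
    · exact absurd h (hL x y rfl)
  have hT2 : TT y x = 0 := by
    rcases hC2 with h | h
    · exact h
    · exact absurd h (hL y x (mul_comm _ _))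
  by_cases hxy : x = y
  · -- N = M
    have hNMeq : N * N = N * M := by
      have h1 : N < p := by nlinarith
      have h2' : M < p := by nlinarith
      have h3 : (N : ZMod p) = (M : ZMod p) := hxy
      have h4' : N = M := by
        have h5 := congrArg ZMod.val h3
        rwa [ZMod.val_natCast_of_lt h1, ZMod.val_natCast_of_lt h2'] at h5
      rw [h4']
    rw [← hxy] at hT1 hmc hc0 hc1
    have hd := ARM_diag x (x * x) rfl
    rw [hT1] at hd
    have hd2 := ARM_diag2 (x * x)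
    have hc4 : x * x - 4 ≠ 0 := by
      intro h
      have h1 : ((4 * m + 1 : ℕ) : ZMod p) = 0 := by
        push_cast
        linear_combination hmc - (m : ZMod p) * h
      rw [ZMod.natCast_eq_zero_iff] at h1
      obtain ⟨k, hk⟩ := h1
      have hk1 : k = 1 := by
        rcases Nat.lt_or_ge k 1 with h | h
        · have : k = 0 := by omega
          rw [this] at hk; omega
        · rcases Nat.lt_or_ge 1 k with h' | h'
          · nlinarith
          · omega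
      rw [hk1, mul_one] at hk
      have : m ≤ m ^ 8 := Nat.le_self_pow (by norm_num) m
      omega
    have h6 : ARM_Q6 (x * x) = 0 := by
      have h7 : -4 * ((x * x) * (x * x - 1) ^ 3 * (x * x - 4) * ARM_Q6 (x * x)) = 0 := by
        rw [← hd2]
        generalize hcc : x * x = c at hd ⊢
        have hA : ∀ a b : ZMod p, 0 = a + b * x → a ^ 2 - c * b ^ 2 = 0 := by
          intro a b hab
          rw [← hcc]
          linear_combination -(a - b * x) * hab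
        exact hA _ _ hd
      have h8 : (-4 : ZMod p) ≠ 0 := neg_ne_zero.mpr h4
      exact (mul_eq_zero.mp ((mul_eq_zero.mp h7).resolve_left h8)).resolve_left
        (mul_ne_zero (mul_ne_zero hc0 (pow_ne_zero _ hc1)) hc4)
    have h9 : ((4 * m ^ 6 + 121 * m ^ 5 + 828 * m ^ 4 + 1786 * m ^ 3
        + 1417 * m ^ 2 + 531 * m + 81 : ℕ) : ZMod p) = 0 := by
      have e : (m : ZMod p) ^ 6 * ARM_Q6 (x * x) = 81 * (m * (x * x)) ^ 6
          - 531 * m * (m * (x * x)) ^ 5 + 1417 * m ^ 2 * (m * (x * x)) ^ 4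
          - 1786 * m ^ 3 * (m * (x * x)) ^ 3 + 828 * m ^ 4 * (m * (x * x)) ^ 2
          - 121 * m ^ 5 * (m * (x * x)) + 4 * m ^ 6 := by
        unfold ARM_Q6; ring
      rw [h6, hmc] at e
      push_cast
      linear_combination -e
    rw [ZMod.natCast_eq_zero_iff] at h9
    have h10 := Nat.le_of_dvd (by positivity) h9
    have h11 := ARM_size6 hm
    omega
  · have hne : x - y ≠ 0 := sub_ne_zero.mpr hxy
    have e1 := ARM_TT x y
    have e2 := ARM_TT y x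
    rw [add_comm y x, mul_comm y x] at e2
    rw [hT1] at e1
    rw [hT2] at e2
    have hbe : ARM_be (x + y) (x * y) = 0 := by
      have h : ARM_be (x + y) (x * y) * (x - y) = 0 := by linear_combination e2 - e1
      exact (mul_eq_zero.mp h).resolve_right hne
    have hal : ARM_al (x + y) (x * y) = 0 := by
      rw [hbe] at e1
      linear_combination -e1
    have hcert := ARM_cert (x + y) (x * y)
    rw [hbe, hal] at hcert
    have h8 : ARM_Q8 (x * y) = 0 := by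
      have h7 : -24 * (x * y) ^ 3 * (x * y - 1) ^ 3 * (x * y - 2) ^ 2 * (2 * (x * y) + 1) ^ 2
          * ARM_Q8 (x * y) = 0 := by
        rw [← hcert]; ring
      refine (mul_eq_zero.mp h7).resolve_left ?_
      refine mul_ne_zero (mul_ne_zero (mul_ne_zero (mul_ne_zero (neg_ne_zero.mpr h24)
        (pow_ne_zero _ hc0)) (pow_ne_zero _ hc1)) (pow_ne_zero _ hc2)) (pow_ne_zero _ hc3)
    have h9 : ((144 * m ^ 8 + 564 * m ^ 7 + 1172 * m ^ 6 + 1427 * m ^ 5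
        + 1086 * m ^ 4 + 467 * m ^ 3 + 107 * m ^ 2 + 24 * m + 9 : ℕ) : ZMod p) = 0 := by
      have e : (m : ZMod p) ^ 8 * ARM_Q8 (x * y) = 9 * (m * (x * y)) ^ 8
          - 24 * m * (m * (x * y)) ^ 7 + 107 * m ^ 2 * (m * (x * y)) ^ 6
          - 467 * m ^ 3 * (m * (x * y)) ^ 5 + 1086 * m ^ 4 * (m * (x * y)) ^ 4
          - 1427 * m ^ 5 * (m * (x * y)) ^ 3 + 1172 * m ^ 6 * (m * (x * y)) ^ 2
          - 564 * m ^ 7 * (m * (x * y)) + 144 * m ^ 8 := by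
        unfold ARM_Q8; ring
      rw [h8, hmc] at e
      push_cast
      linear_combination -e
    rw [ZMod.natCast_eq_zero_iff] at h9
    have h10 := Nat.le_of_dvd (by positivity) h9
    have h11 := ARM_size8 hm
    omega

end Pool.Agent.SK
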