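import Pool.Agent.helper77.SK.Spec2
import Pool.Agent.helper77.SK.ARM

/-! Row sk:ARE: arithmetic of the two conditions, subgroups of index `m ≥ 3`. -/

set_option autoImplicit false
set_option maxHeartbeats 4000000
set_option linter.unusedVariables false
set_option linter.unusedSimpArgs false

namespace Pool.Agent.SK

theorem ARE_M5 {K : Type*} [CommRing K] (N M : K) :
    M5 N M = MX (N + M) (N * M) + MY (N + M) (N * M) * N := by
  simp only [M5, MX, MY, hor2, hor, List.foldr, Int.cast_ofNat, Int.cast_neg, Int.cast_zero,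
    Int.cast_one]
  ring

theorem ARE_diagT {K : Type*} [CommRing K] (x : K) :
    TT x x = 2 * (x * (x + 1) ^ 3 * (x - 2)) * (-2 + 13 * x - 12 * x ^ 2 - 28 * x ^ 3 + 11 * x ^ 4 + 27 * x ^ 5 + 9 * x ^ 6) := by
  unfold TT
  ring

theorem ARE_diagM {K : Type*} [CommRing K] (x : K) :
    M5 x x = x * (x + 1) ^ 6 * (x + 2) * (x - 2) *
    (1368 - 16576 * x + 68226 * x ^ 2 - 84850 * x ^ 3 - 115945 * x ^ 4 + 302220 * x ^ 5 + 48001
    * x ^ 6 - 375351 * x ^ 7 + 24666 * x ^ 8 + 231004 * x ^ 9 - 46301 * x ^ 10 - 81969 * x ^ 11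
    + 25247 * x ^ 12 + 16702 * x ^ 13 - 5910 * x ^ 14 - 1440 * x ^ 15 + 540 * x ^ 16) := by
  simp only [M5, hor2, hor, List.foldr, Int.cast_ofNat, Int.cast_neg, Int.cast_zero,
    Int.cast_one]
  ring

theorem ARE_diagK {K : Type*} [CommRing K] (x : K) (h1 : (-2 + 13 * x - 12 * x ^ 2 - 28 * x ^ 3 + 11 * x ^ 4 + 27 * x ^ 5 + 9 * x ^ 6) = 0)
    (h2 :
    (1368 - 16576 * x + 68226 * x ^ 2 - 84850 * x ^ 3 - 115945 * x ^ 4 + 302220 * x ^ 5 + 48001
    * x ^ 6 - 375351 * x ^ 7 + 24666 * x ^ 8 + 231004 * x ^ 9 - 46301 * x ^ 10 - 81969 * x ^ 11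
    + 25247 * x ^ 12 + 16702 * x ^ 13 - 5910 * x ^ 14 - 1440 * x ^ 15 + 540 * x ^ 16) = 0) : (264759068206080 : K) = 0 := by
  linear_combination
    (1091639916660551652 - 10350393076780262166 * x + 27759496642000765564 * x ^ 2 +
    2359006407813446163 * x ^ 3 - 84447816470330098918 * x ^ 4 + 27832200177486494539 * x ^ 5 +
    105314549385378016685 * x ^ 6 - 33911090115651904746 * x ^ 7 - 63679425844829845762 * x ^ 8
    + 23735564088500682189 * x ^ 9 + 22012180094761126069 * x ^ 10 - 9861923901830846965 * x ^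
    11 - 4474396578572641454 * x ^ 12 + 2038444735110468330 * x ^ 13 + 387475373696648760 * x ^
    14 - 171753760779224580 * x ^ 15) * h1 +
    (1596158327769963 - 6165339641105840 * x - 5791217601851126 * x ^ 2 + 7515373327363579 * x
    ^ 3 + 9763265623093731 * x ^ 4 + 2862562679653743 * x ^ 5) * h2

theorem ARE_W {K : Type*} [CommRing K] (s c : K) :
    (
    (-432 + 2088 * c - 4116 * c ^ 2 + 4878 * c ^ 3 - 3604 * c ^ 4 + 1024 * c ^ 5 + 138 * c ^ 6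
    - 32 * c ^ 7 - 40 * c ^ 8 - 12 * c ^ 9)
      + s *
    (216 - 252 * c + 198 * c ^ 2 - 277 * c ^ 3 + 91 * c ^ 4 + 48 * c ^ 5 - 2 * c ^ 6 - 19 * c ^
    7 - 3 * c ^ 8)) * ARM_be s c
    + (
    (-144 + 744 * c - 2588 * c ^ 2 + 4082 * c ^ 3 - 4542 * c ^ 4 + 3032 * c ^ 5 - 1022 * c ^ 6
    + 162 * c ^ 7 - 66 * c ^ 8 + 18 * c ^ 9)
      + s *
    (108 - 600 * c + 931 * c ^ 2 - 1185 * c ^ 3 + 980 * c ^ 4 - 358 * c ^ 5 + 15 * c ^ 6 - 11 *
    c ^ 7 + 12 * c ^ 8)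
      + s ^ 2 *
    (-36 + 48 * c - 41 * c ^ 2 + 53 * c ^ 3 - 24 * c ^ 4 - 4 * c ^ 5 + 1 * c ^ 6 + 3 * c ^ 7)) * (ARM_al s c + s * ARM_be s c)
    = 12 * ((c - 1) * (c - 2)) * (
    (-144 + 804 * c - 2392 * c ^ 2 + 4585 * c ^ 3 - 6092 * c ^ 4 + 5659 * c ^ 5 - 3557 * c ^ 6
    + 1358 * c ^ 7 - 309 * c ^ 8 + 76 * c ^ 9 - 24 * c ^ 10) * s +
    (144 - 948 * c + 3388 * c ^ 2 - 8137 * c ^ 3 + 13517 * c ^ 4 - 15929 * c ^ 5 + 13132 * c ^
    6 - 7353 * c ^ 7 + 2623 * c ^ 8 - 627 * c ^ 9 + 160 * c ^ 10 - 42 * c ^ 11)) := by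
  unfold ARM_al ARM_be
  ring

theorem ARE_s {K : Type*} [CommRing K] (s c : K) (hQ : ARM_Q8 c = 0) (h :
    (-144 + 804 * c - 2392 * c ^ 2 + 4585 * c ^ 3 - 6092 * c ^ 4 + 5659 * c ^ 5 - 3557 * c ^ 6
    + 1358 * c ^ 7 - 309 * c ^ 8 + 76 * c ^ 9 - 24 * c ^ 10) * s +
    (144 - 948 * c + 3388 * c ^ 2 - 8137 * c ^ 3 + 13517 * c ^ 4 - 15929 * c ^ 5 + 13132 * c ^
    6 - 7353 * c ^ 7 + 2623 * c ^ 8 - 627 * c ^ 9 + 160 * c ^ 10 - 42 * c ^ 11) = 0) :
    5184000 * (1500 * s -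
    (20112 - 59724 * c + 84235 * c ^ 2 - 62956 * c ^ 3 + 22979 * c ^ 4 - 4625 * c ^ 5 + 1536 *
    c ^ 6 - 333 * c ^ 7)) = 0 := by
  unfold ARM_Q8 at hQ
  linear_combination
    (1406877948 - 10021073016 * c + 20018910025 * c ^ 2 - 21570666934 * c ^ 3 + 11243303261 * c
    ^ 4 - 2590372985 * c ^ 5 + 492231804 * c ^ 6 - 258399027 * c ^ 7) * h
    - (
    (-1460877948 + 12154369596 * c - 39845169395 * c ^ 2 + 75139251440 * c ^ 3 - 92753678429 *
    c ^ 4 + 74229562447 * c ^ 5 - 32756894686 * c ^ 6 + 7324712007 * c ^ 7 - 1657150180 * c ^ 8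
    + 689064072 * c ^ 9) * s -
    (-2130909948 + 13087019544 * c - 53523413255 * c ^ 2 + 133636301459 * c ^ 3 - 218609716163
    * c ^ 4 + 231894168936 * c ^ 5 - 157498422815 * c ^ 6 + 62645063841 * c ^ 7 - 14704073217 *
    c ^ 8 + 3675209896 * c ^ 9 - 1205862126 * c ^ 10)) * hQ

theorem ARE_x10 {K : Type*} [CommRing K] (s c T : K) (hQ : ARM_Q8 c = 0) (hs : 1500 * s =
    (20112 - 59724 * c + 84235 * c ^ 2 - 62956 * c ^ 3 + 22979 * c ^ 4 - 4625 * c ^ 5 + 1536 *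
    c ^ 6 - 333 * c ^ 7))
    (hT : 1 * T =
    (-8 + 24 * c - 24 * c ^ 2 + 8 * c ^ 3)) :
    12 * (125 * (
    (-26 - 20 * c + 182 * c ^ 2 - 200 * c ^ 3 + 64 * c ^ 4) + s * T) -
    (3406 - 18612 * c + 42580 * c ^ 2 - 37428 * c ^ 3 + 12802 * c ^ 4 - 1650 * c ^ 5 + 468 * c
    ^ 6 - 54 * c ^ 7)) = 0 := by
  unfold ARM_Q8 at hQ
  linear_combination (1 * T) * hs + (1 *
    (20112 - 59724 * c + 84235 * c ^ 2 - 62956 * c ^ 3 + 22979 * c ^ 4 - 4625 * c ^ 5 + 1536 *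
    c ^ 6 - 333 * c ^ 7)) * hT +
    (-1672 + 1464 * c - 296 * c ^ 2) * hQ

theorem ARE_x9 {K : Type*} [CommRing K] (s c T : K) (hQ : ARM_Q8 c = 0) (hs : 1500 * s =
    (20112 - 59724 * c + 84235 * c ^ 2 - 62956 * c ^ 3 + 22979 * c ^ 4 - 4625 * c ^ 5 + 1536 *
    c ^ 6 - 333 * c ^ 7))
    (hT : 125 * T =
    (3406 - 18612 * c + 42580 * c ^ 2 - 37428 * c ^ 3 + 12802 * c ^ 4 - 1650 * c ^ 5 + 468 * c
    ^ 6 - 54 * c ^ 7)) :
    3750 * (50 * (
    (156 - 715 * c + 624 * c ^ 2 + 473 * c ^ 3 - 756 * c ^ 4 + 218 * c ^ 5) + s * T) -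
    (8872 - 11610 * c - 24297 * c ^ 2 + 86706 * c ^ 3 - 69125 * c ^ 4 + 18757 * c ^ 5 - 2856 *
    c ^ 6 + 1341 * c ^ 7)) = 0 := by
  unfold ARM_Q8 at hQ
  linear_combination (125 * T) * hs + (1 *
    (20112 - 59724 * c + 84235 * c ^ 2 - 62956 * c ^ 3 + 22979 * c ^ 4 - 4625 * c ^ 5 + 1536 *
    c ^ 6 - 333 * c ^ 7)) * hT +
    (447788 - 2886924 * c + 2152344 * c ^ 2 - 542218 * c ^ 3 + 88374 * c ^ 4 - 21204 * c ^ 5 +
    1998 * c ^ 6) * hQ

theorem ARE_x8 {K : Type*} [CommRing K] (s c T : K) (hQ : ARM_Q8 c = 0) (hs : 1500 * s =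
    (20112 - 59724 * c + 84235 * c ^ 2 - 62956 * c ^ 3 + 22979 * c ^ 4 - 4625 * c ^ 5 + 1536 *
    c ^ 6 - 333 * c ^ 7))
    (hT : 50 * T =
    (8872 - 11610 * c - 24297 * c ^ 2 + 86706 * c ^ 3 - 69125 * c ^ 4 + 18757 * c ^ 5 - 2856 *
    c ^ 6 + 1341 * c ^ 7)) :
    300 * (250 * (
    (1200 - 2330 * c + 237 * c ^ 2 + 629 * c ^ 3 + 1785 * c ^ 4 - 1919 * c ^ 5 + 398 * c ^ 6) + s * T) -
    (-467704 + 1958438 * c - 3911985 * c ^ 2 + 3771992 * c ^ 3 - 1538423 * c ^ 4 + 210465 * c ^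
    5 - 56302 * c ^ 6 + 29691 * c ^ 7)) = 0 := by
  unfold ARM_Q8 at hQ
  linear_combination (50 * T) * hs + (1 *
    (20112 - 59724 * c + 84235 * c ^ 2 - 62956 * c ^ 3 + 22979 * c ^ 4 - 4625 * c ^ 5 + 1536 *
    c ^ 6 - 333 * c ^ 7)) * hT +
    (2838506 + 522669 * c - 6170180 * c ^ 2 + 3694493 * c ^ 3 - 741403 * c ^ 4 + 202224 * c ^ 5
    - 49617 * c ^ 6) * hQ

theorem ARE_x7 {K : Type*} [CommRing K] (s c T : K) (hQ : ARM_Q8 c = 0) (hs : 1500 * s =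
    (20112 - 59724 * c + 84235 * c ^ 2 - 62956 * c ^ 3 + 22979 * c ^ 4 - 4625 * c ^ 5 + 1536 *
    c ^ 6 - 333 * c ^ 7))
    (hT : 250 * T =
    (-467704 + 1958438 * c - 3911985 * c ^ 2 + 3771992 * c ^ 3 - 1538423 * c ^ 4 + 210465 * c ^
    5 - 56302 * c ^ 6 + 29691 * c ^ 7)) :
    1500 * (250 * (
    (-3952 + 28538 * c - 54157 * c ^ 2 + 47145 * c ^ 3 - 27202 * c ^ 4 + 14205 * c ^ 5 - 4917 *
    c ^ 6 + 484 * c ^ 7) + s * T) -
    (-2044568 + 7561046 * c - 11663345 * c ^ 2 + 7727714 * c ^ 3 - 3641091 * c ^ 4 + 2045055 *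
    c ^ 5 - 677534 * c ^ 6 + 12647 * c ^ 7)) = 0 := by
  unfold ARM_Q8 at hQ
  linear_combination (250 * T) * hs + (1 *
    (20112 - 59724 * c + 84235 * c ^ 2 - 62956 * c ^ 3 + 22979 * c ^ 4 - 4625 * c ^ 5 + 1536 *
    c ^ 6 - 333 * c ^ 7)) * hT +
    (-54316742 + 250324981 * c - 229249906 * c ^ 2 + 68163067 * c ^ 3 - 8337411 * c ^ 4 +
    4220926 * c ^ 5 - 1098567 * c ^ 6) * hQ

theorem ARE_x6 {K : Type*} [CommRing K] (s c T : K) (hQ : ARM_Q8 c = 0) (hs : 1500 * s =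
    (20112 - 59724 * c + 84235 * c ^ 2 - 62956 * c ^ 3 + 22979 * c ^ 4 - 4625 * c ^ 5 + 1536 *
    c ^ 6 - 333 * c ^ 7))
    (hT : 250 * T =
    (-2044568 + 7561046 * c - 11663345 * c ^ 2 + 7727714 * c ^ 3 - 3641091 * c ^ 4 + 2045055 *
    c ^ 5 - 677534 * c ^ 6 + 12647 * c ^ 7)) :
    1500 * (250 * (
    (-2642 - 32302 * c + 198233 * c ^ 2 - 341047 * c ^ 3 + 290281 * c ^ 4 - 158362 * c ^ 5 +
    59421 * c ^ 6 - 12075 * c ^ 7 + 653 * c ^ 8) + s * T) -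
    (10165124 - 43550238 * c + 92160215 * c ^ 2 - 101273507 * c ^ 3 + 55641223 * c ^ 4 -
    20155445 * c ^ 5 + 7947792 * c ^ 6 - 2206456 * c ^ 7)) = 0 := by
  unfold ARM_Q8 at hQ
  linear_combination (250 * T) * hs + (1 *
    (20112 - 59724 * c + 84235 * c ^ 2 - 62956 * c ^ 3 + 22979 * c ^ 4 - 4625 * c ^ 5 + 1536 *
    c ^ 6 - 333 * c ^ 7)) * hT +
    (-398324914 + 713433277 * c - 368493552 * c ^ 2 + 203178839 * c ^ 3 - 122957137 * c ^ 4 +
    25979342 * c ^ 5 - 467939 * c ^ 6) * hQ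

theorem ARE_x5 {K : Type*} [CommRing K] (s c T : K) (hQ : ARM_Q8 c = 0) (hs : 1500 * s =
    (20112 - 59724 * c + 84235 * c ^ 2 - 62956 * c ^ 3 + 22979 * c ^ 4 - 4625 * c ^ 5 + 1536 *
    c ^ 6 - 333 * c ^ 7))
    (hT : 250 * T =
    (10165124 - 43550238 * c + 92160215 * c ^ 2 - 101273507 * c ^ 3 + 55641223 * c ^ 4 -
    20155445 * c ^ 5 + 7947792 * c ^ 6 - 2206456 * c ^ 7)) :
    1250 * (900 * (
    (17284 - 89533 * c - 13127 * c ^ 2 + 610132 * c ^ 3 - 1034680 * c ^ 4 + 819710 * c ^ 5 -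
    404425 * c ^ 6 + 127110 * c ^ 7 - 19880 * c ^ 8 + 945 * c ^ 9) + s * T) -
    (294932592 - 916419732 * c + 1515551084 * c ^ 2 - 1284986225 * c ^ 3 + 663493857 * c ^ 4 -
    197804489 * c ^ 5 - 1797295 * c ^ 6 + 18655284 * c ^ 7)) = 0 := by
  unfold ARM_Q8 at hQ
  linear_combination (750 * T) * hs + (3 *
    (20112 - 59724 * c + 84235 * c ^ 2 - 62956 * c ^ 3 + 22979 * c ^ 4 - 4625 * c ^ 5 + 1536 *
    c ^ 6 - 333 * c ^ 7)) * hT +
    (1834039456 - 16456628223 * c + 18000696843 * c ^ 2 - 8325215361 * c ^ 3 + 3172892043 * c ^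
    4 - 1358799408 * c ^ 5 + 244916616 * c ^ 6) * hQ

theorem ARE_x4 {K : Type*} [CommRing K] (s c T : K) (hQ : ARM_Q8 c = 0) (hs : 1500 * s =
    (20112 - 59724 * c + 84235 * c ^ 2 - 62956 * c ^ 3 + 22979 * c ^ 4 - 4625 * c ^ 5 + 1536 *
    c ^ 6 - 333 * c ^ 7))
    (hT : 900 * T =
    (294932592 - 916419732 * c + 1515551084 * c ^ 2 - 1284986225 * c ^ 3 + 663493857 * c ^ 4 -
    197804489 * c ^ 5 - 1797295 * c ^ 6 + 18655284 * c ^ 7)) :
    2250 * (600 * (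
    (-11268 + 176412 * c - 641404 * c ^ 2 + 554628 * c ^ 3 + 815880 * c ^ 4 - 1683672 * c ^ 5 +
    1265563 * c ^ 6 - 561300 * c ^ 7 + 148651 * c ^ 8 - 18364 * c ^ 9 + 810 * c ^ 10) + s * T) -
    (-399993984 + 1821731832 * c - 3781375332 * c ^ 2 + 4499339834 * c ^ 3 - 2982845687 * c ^ 4
    + 1103954067 * c ^ 5 - 231309179 * c ^ 6 + 27736685 * c ^ 7)) = 0 := by
  unfold ARM_Q8 at hQ
  linear_combination (900 * T) * hs + (1 *
    (20112 - 59724 * c + 84235 * c ^ 2 - 62956 * c ^ 3 + 22979 * c ^ 4 - 4625 * c ^ 5 + 1536 *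
    c ^ 6 - 333 * c ^ 7)) * hT +
    (47336520516 - 91725907122 * c + 72826720819 * c ^ 2 - 37286990599 * c ^ 3 + 9390684365 * c
    ^ 4 + 1409680363 * c ^ 5 - 690245508 * c ^ 6) * hQ

theorem ARE_x3 {K : Type*} [CommRing K] (s c T : K) (hQ : ARM_Q8 c = 0) (hs : 1500 * s =
    (20112 - 59724 * c + 84235 * c ^ 2 - 62956 * c ^ 3 + 22979 * c ^ 4 - 4625 * c ^ 5 + 1536 *
    c ^ 6 - 333 * c ^ 7))
    (hT : 600 * T =
    (-399993984 + 1821731832 * c - 3781375332 * c ^ 2 + 4499339834 * c ^ 3 - 2982845687 * c ^ 4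
    + 1103954067 * c ^ 5 - 231309179 * c ^ 6 + 27736685 * c ^ 7)) :
    150 * (6000 * (
    (-12472 - 15474 * c + 581488 * c ^ 2 - 1919329 * c ^ 3 + 2014878 * c ^ 4 + 172324 * c ^ 5 -
    1496700 * c ^ 6 + 1125386 * c ^ 7 - 449466 * c ^ 8 + 96607 * c ^ 9 - 8520 * c ^ 10 + 270 *
    c ^ 11) + s * T) -
    (-4518356784 + 10562827068 * c - 8150287020 * c ^ 2 - 8819777683 * c ^ 3 + 22200333022 * c
    ^ 4 - 16669994250 * c ^ 5 + 5765579998 * c ^ 6 - 821295919 * c ^ 7)) = 0 := by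
  unfold ARM_Q8 at hQ
  linear_combination (600 * T) * hs + (1 *
    (20112 - 59724 * c + 84235 * c ^ 2 - 62956 * c ^ 3 + 22979 * c ^ 4 - 4625 * c ^ 5 + 1536 *
    c ^ 6 - 333 * c ^ 7)) * hT +
    (-51237154782 + 208554203808 * c - 271702967004 * c ^ 2 + 165134275141 * c ^ 3 -
    54227632537 * c ^ 4 + 10555480943 * c ^ 5 - 1026257345 * c ^ 6) * hQ

theorem ARE_x2 {K : Type*} [CommRing K] (s c T : K) (hQ : ARM_Q8 c = 0) (hs : 1500 * s =
    (20112 - 59724 * c + 84235 * c ^ 2 - 62956 * c ^ 3 + 22979 * c ^ 4 - 4625 * c ^ 5 + 1536 *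
    c ^ 6 - 333 * c ^ 7))
    (hT : 6000 * T =
    (-4518356784 + 10562827068 * c - 8150287020 * c ^ 2 - 8819777683 * c ^ 3 + 22200333022 * c
    ^ 4 - 16669994250 * c ^ 5 + 5765579998 * c ^ 6 - 821295919 * c ^ 7)) :
    750 * (12000 * (
    (17200 - 146112 * c + 286688 * c ^ 2 + 507884 * c ^ 3 - 2440551 * c ^ 4 + 2699757 * c ^ 5 -
    478607 * c ^ 6 - 777959 * c ^ 7 + 608072 * c ^ 8 - 217194 * c ^ 9 + 35358 * c ^ 10 - 1800 *
    c ^ 11) + s * T) -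
    (14640241968 - 71455341516 * c + 159403286880 * c ^ 2 - 205292010749 * c ^ 3 + 155515118261
    * c ^ 4 - 63026224965 * c ^ 5 + 10826963969 * c ^ 6 + 78389308 * c ^ 7)) = 0 := by
  unfold ARM_Q8 at hQ
  linear_combination (6000 * T) * hs + (1 *
    (20112 - 59724 * c + 84235 * c ^ 2 - 62956 * c ^ 3 + 22979 * c ^ 4 - 4625 * c ^ 5 + 1536 *
    c ^ 6 - 333 * c ^ 7)) * hT +
    (-706240091082 + 946187536986 * c + 479265586059 * c ^ 2 - 1418672692598 * c ^ 3 +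
    934998628664 * c ^ 4 - 272459766094 * c ^ 5 + 30387949003 * c ^ 6) * hQ

theorem ARE_x1 {K : Type*} [CommRing K] (s c T : K) (hQ : ARM_Q8 c = 0) (hs : 1500 * s =
    (20112 - 59724 * c + 84235 * c ^ 2 - 62956 * c ^ 3 + 22979 * c ^ 4 - 4625 * c ^ 5 + 1536 *
    c ^ 6 - 333 * c ^ 7))
    (hT : 12000 * T =
    (14640241968 - 71455341516 * c + 159403286880 * c ^ 2 - 205292010749 * c ^ 3 + 155515118261
    * c ^ 4 - 63026224965 * c ^ 5 + 10826963969 * c ^ 6 + 78389308 * c ^ 7)) :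
    250 * (216000 * (
    (-5472 + 96264 * c - 507348 * c ^ 2 + 1104355 * c ^ 3 - 768103 * c ^ 4 - 727074 * c ^ 5 +
    1160615 * c ^ 6 - 134457 * c ^ 7 - 340573 * c ^ 8 + 220910 * c ^ 9 - 66177 * c ^ 10 + 7650
    * c ^ 11 - 270 * c ^ 12) + s * T) -
    (219137520672 - 1611511791864 * c + 4786245844220 * c ^ 2 - 8586650125646 * c ^ 3 +
    9772254341919 * c ^ 4 - 7179035277635 * c ^ 5 + 3062030919851 * c ^ 6 - 579654635193 * c ^
    7)) = 0 := by
  unfold ARM_Q8 at hQ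
  linear_combination (36000 * T) * hs + (3 *
    (20112 - 59724 * c + 84235 * c ^ 2 - 62956 * c ^ 3 + 22979 * c ^ 4 - 4625 * c ^ 5 + 1536 *
    c ^ 6 - 333 * c ^ 7)) * hT +
    (5751762300092 - 22794310960986 * c + 36800003215701 * c ^ 2 - 26979882025377 * c ^ 3 +
    9360665003451 * c ^ 4 - 1184860910031 * c ^ 5 - 8701213188 * c ^ 6) * hQ

theorem ARE_x0 {K : Type*} [CommRing K] (s c T : K) (hQ : ARM_Q8 c = 0) (hs : 1500 * s =
    (20112 - 59724 * c + 84235 * c ^ 2 - 62956 * c ^ 3 + 22979 * c ^ 4 - 4625 * c ^ 5 + 1536 *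
    c ^ 6 - 333 * c ^ 7))
    (hT : 216000 * T =
    (219137520672 - 1611511791864 * c + 4786245844220 * c ^ 2 - 8586650125646 * c ^ 3 +
    9772254341919 * c ^ 4 - 7179035277635 * c ^ 5 + 3062030919851 * c ^ 6 - 579654635193 * c ^
    7)) :
    750 * (432000 * (
    (-14752 * c + 145152 * c ^ 2 - 556566 * c ^ 3 + 1092532 * c ^ 4 - 1123673 * c ^ 5 + 519691
    * c ^ 6 - 137506 * c ^ 7 + 158866 * c ^ 8 - 120881 * c ^ 9 + 46227 * c ^ 10 - 9630 * c ^ 11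
    + 540 * c ^ 12) + s * T) -
    (-18462511206864 + 59958793270788 * c - 98155052346500 * c ^ 2 + 68077397697187 * c ^ 3 +
    12194267899102 * c ^ 4 - 66812285354770 * c ^ 5 + 49035480848078 * c ^ 6 - 12605937113389 *
    c ^ 7)) = 0 := by
  unfold ARM_Q8 at hQ
  linear_combination (216000 * T) * hs + (1 *
    (20112 - 59724 * c + 84235 * c ^ 2 - 62956 * c ^ 3 + 22979 * c ^ 4 - 4625 * c ^ 5 + 1536 *
    c ^ 6 - 333 * c ^ 7)) * hT +
    (126765119589606 - 131783622188448 * c + 428712438643168 * c ^ 2 - 570767368536061 * c ^ 3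
    + 417710724548993 * c ^ 4 - 155030277768383 * c ^ 5 + 21447221502141 * c ^ 6) * hQ

theorem ARE_y9 {K : Type*} [CommRing K] (s c T : K) (hQ : ARM_Q8 c = 0) (hs : 1500 * s =
    (20112 - 59724 * c + 84235 * c ^ 2 - 62956 * c ^ 3 + 22979 * c ^ 4 - 4625 * c ^ 5 + 1536 *
    c ^ 6 - 333 * c ^ 7))
    (hT : 1 * T =
    (8 - 24 * c + 24 * c ^ 2 - 8 * c ^ 3)) :
    12 * (125 * (
    (26 + 20 * c - 182 * c ^ 2 + 200 * c ^ 3 - 64 * c ^ 4) + s * T) -
    (-3406 + 18612 * c - 42580 * c ^ 2 + 37428 * c ^ 3 - 12802 * c ^ 4 + 1650 * c ^ 5 - 468 * c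
    ^ 6 + 54 * c ^ 7)) = 0 := by
  unfold ARM_Q8 at hQ
  linear_combination (1 * T) * hs + (1 *
    (20112 - 59724 * c + 84235 * c ^ 2 - 62956 * c ^ 3 + 22979 * c ^ 4 - 4625 * c ^ 5 + 1536 *
    c ^ 6 - 333 * c ^ 7)) * hT +
    (1672 - 1464 * c + 296 * c ^ 2) * hQ

theorem ARE_y8 {K : Type*} [CommRing K] (s c T : K) (hQ : ARM_Q8 c = 0) (hs : 1500 * s =
    (20112 - 59724 * c + 84235 * c ^ 2 - 62956 * c ^ 3 + 22979 * c ^ 4 - 4625 * c ^ 5 + 1536 *
    c ^ 6 - 333 * c ^ 7))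
    (hT : 125 * T =
    (-3406 + 18612 * c - 42580 * c ^ 2 + 37428 * c ^ 3 - 12802 * c ^ 4 + 1650 * c ^ 5 - 468 * c
    ^ 6 + 54 * c ^ 7)) :
    3750 * (50 * (
    (-156 + 723 * c - 648 * c ^ 2 - 449 * c ^ 3 + 748 * c ^ 4 - 218 * c ^ 5) + s * T) -
    (-8872 + 12010 * c + 23097 * c ^ 2 - 85506 * c ^ 3 + 68725 * c ^ 4 - 18757 * c ^ 5 + 2856 *
    c ^ 6 - 1341 * c ^ 7)) = 0 := by
  unfold ARM_Q8 at hQ
  linear_combination (125 * T) * hs + (1 *
    (20112 - 59724 * c + 84235 * c ^ 2 - 62956 * c ^ 3 + 22979 * c ^ 4 - 4625 * c ^ 5 + 1536 *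
    c ^ 6 - 333 * c ^ 7)) * hT +
    (-447788 + 2886924 * c - 2152344 * c ^ 2 + 542218 * c ^ 3 - 88374 * c ^ 4 + 21204 * c ^ 5 -
    1998 * c ^ 6) * hQ

theorem ARE_y7 {K : Type*} [CommRing K] (s c T : K) (hQ : ARM_Q8 c = 0) (hs : 1500 * s =
    (20112 - 59724 * c + 84235 * c ^ 2 - 62956 * c ^ 3 + 22979 * c ^ 4 - 4625 * c ^ 5 + 1536 *
    c ^ 6 - 333 * c ^ 7))
    (hT : 50 * T =
    (-8872 + 12010 * c + 23097 * c ^ 2 - 85506 * c ^ 3 + 68725 * c ^ 4 - 18757 * c ^ 5 + 2856 *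
    c ^ 6 - 1341 * c ^ 7)) :
    300 * (250 * (
    (-1200 + 2356 * c - 217 * c ^ 2 - 811 * c ^ 3 - 1585 * c ^ 4 + 1855 * c ^ 5 - 398 * c ^ 6) + s * T) -
    (465976 - 1958482 * c + 3935145 * c ^ 2 - 3840028 * c ^ 3 + 1600247 * c ^ 4 - 230465 * c ^
    5 + 58318 * c ^ 6 - 30339 * c ^ 7)) = 0 := by
  unfold ARM_Q8 at hQ
  linear_combination (50 * T) * hs + (1 *
    (20112 - 59724 * c + 84235 * c ^ 2 - 62956 * c ^ 3 + 22979 * c ^ 4 - 4625 * c ^ 5 + 1536 *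
    c ^ 6 - 333 * c ^ 7)) * hT +
    (-2834906 - 439069 * c + 6096980 * c ^ 2 - 3679693 * c ^ 3 + 741403 * c ^ 4 - 202224 * c ^
    5 + 49617 * c ^ 6) * hQ

theorem ARE_y6 {K : Type*} [CommRing K] (s c T : K) (hQ : ARM_Q8 c = 0) (hs : 1500 * s =
    (20112 - 59724 * c + 84235 * c ^ 2 - 62956 * c ^ 3 + 22979 * c ^ 4 - 4625 * c ^ 5 + 1536 *
    c ^ 6 - 333 * c ^ 7))
    (hT : 250 * T =
    (465976 - 1958482 * c + 3935145 * c ^ 2 - 3840028 * c ^ 3 + 1600247 * c ^ 4 - 230465 * c ^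
    5 + 58318 * c ^ 6 - 30339 * c ^ 7)) :
    1500 * (250 * (
    (2224 - 25238 * c + 53160 * c ^ 2 - 47817 * c ^ 3 + 26777 * c ^ 4 - 13465 * c ^ 5 + 4699 *
    c ^ 6 - 484 * c ^ 7) + s * T) -
    (1719848 - 7161586 * c + 12166535 * c ^ 2 - 8681344 * c ^ 3 + 4028631 * c ^ 4 - 2051345 * c
    ^ 5 + 663464 * c ^ 6 - 16247 * c ^ 7)) = 0 := by
  unfold ARM_Q8 at hQ
  linear_combination (250 * T) * hs + (1 *
    (20112 - 59724 * c + 84235 * c ^ 2 - 62956 * c ^ 3 + 22979 * c ^ 4 - 4625 * c ^ 5 + 1536 *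
    c ^ 6 - 333 * c ^ 7)) * hT +
    (52957898 - 250503869 * c + 234012934 * c ^ 2 - 71712283 * c ^ 3 + 9146099 * c ^ 4 -
    4342174 * c ^ 5 + 1122543 * c ^ 6) * hQ

theorem ARE_y5 {K : Type*} [CommRing K] (s c T : K) (hQ : ARM_Q8 c = 0) (hs : 1500 * s =
    (20112 - 59724 * c + 84235 * c ^ 2 - 62956 * c ^ 3 + 22979 * c ^ 4 - 4625 * c ^ 5 + 1536 *
    c ^ 6 - 333 * c ^ 7))
    (hT : 250 * T =
    (1719848 - 7161586 * c + 12166535 * c ^ 2 - 8681344 * c ^ 3 + 4028631 * c ^ 4 - 2051345 * c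
    ^ 5 + 663464 * c ^ 6 - 16247 * c ^ 7)) :
    1500 * (250 * (
    (914 + 20878 * c - 171947 * c ^ 2 + 328898 * c ^ 3 - 291274 * c ^ 4 + 156977 * c ^ 5 -
    57630 * c ^ 6 + 11677 * c ^ 7 - 653 * c ^ 8) + s * T) -
    (-9838676 + 43052122 * c - 93270265 * c ^ 2 + 108690523 * c ^ 3 - 62080237 * c ^ 4 +
    21700035 * c ^ 5 - 8078688 * c ^ 6 + 2347454 * c ^ 7)) = 0 := by
  unfold ARM_Q8 at hQ
  linear_combination (250 * T) * hs + (1 *
    (20112 - 59724 * c + 84235 * c ^ 2 - 62956 * c ^ 3 + 22979 * c ^ 4 - 4625 * c ^ 5 + 1536 *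
    c ^ 6 - 333 * c ^ 7)) * hT +
    (345071854 - 756100187 * c + 429471282 * c ^ 2 - 219962159 * c ^ 3 + 121752027 * c ^ 4 -
    25717952 * c ^ 5 + 601139 * c ^ 6) * hQ

theorem ARE_y4 {K : Type*} [CommRing K] (s c T : K) (hQ : ARM_Q8 c = 0) (hs : 1500 * s =
    (20112 - 59724 * c + 84235 * c ^ 2 - 62956 * c ^ 3 + 22979 * c ^ 4 - 4625 * c ^ 5 + 1536 *
    c ^ 6 - 333 * c ^ 7))
    (hT : 250 * T =
    (-9838676 + 43052122 * c - 93270265 * c ^ 2 + 108690523 * c ^ 3 - 62080237 * c ^ 4 +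
    21700035 * c ^ 5 - 8078688 * c ^ 6 + 2347454 * c ^ 7)) :
    250 * (4500 * (
    (-6916 + 52205 * c - 10227 * c ^ 2 - 494265 * c ^ 3 + 954391 * c ^ 4 - 793046 * c ^ 5 +
    391812 * c ^ 6 - 122629 * c ^ 7 + 19396 * c ^ 8 - 945 * c ^ 9) + s * T) -
    (-1702289232 + 5536531644 * c - 9534999200 * c ^ 2 + 8646755381 * c ^ 3 - 4470545949 * c ^
    4 + 1277649065 * c ^ 5 - 71036561 * c ^ 6 - 61918032 * c ^ 7)) = 0 := by
  unfold ARM_Q8 at hQ
  linear_combination (750 * T) * hs + (3 *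
    (20112 - 59724 * c + 84235 * c ^ 2 - 62956 * c ^ 3 + 22979 * c ^ 4 - 4625 * c ^ 5 + 1536 *
    c ^ 6 - 333 * c ^ 7)) * hT +
    (-1221073244 + 16293892317 * c - 19683851367 * c ^ 2 + 9366155619 * c ^ 3 - 3322701777 * c
    ^ 4 + 1403784432 * c ^ 5 - 260567394 * c ^ 6) * hQ

theorem ARE_y3 {K : Type*} [CommRing K] (s c T : K) (hQ : ARM_Q8 c = 0) (hs : 1500 * s =
    (20112 - 59724 * c + 84235 * c ^ 2 - 62956 * c ^ 3 + 22979 * c ^ 4 - 4625 * c ^ 5 + 1536 *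
    c ^ 6 - 333 * c ^ 7))
    (hT : 4500 * T =
    (-1702289232 + 5536531644 * c - 9534999200 * c ^ 2 + 8646755381 * c ^ 3 - 4470545949 * c ^
    4 + 1277649065 * c ^ 5 - 71036561 * c ^ 6 - 61918032 * c ^ 7)) :
    2250 * (3000 * (
    (12996 - 112954 * c + 442842 * c ^ 2 - 546939 * c ^ 3 - 461927 * c ^ 4 + 1372007 * c ^ 5 -
    1112675 * c ^ 6 + 506097 * c ^ 7 - 137372 * c ^ 8 + 17711 * c ^ 9 - 810 * c ^ 10) + s * T) -
    (801638784 - 5111072328 * c + 11911874300 * c ^ 2 - 15915386022 * c ^ 3 + 11538523063 * c ^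
    4 - 4513218755 * c ^ 5 + 1008537507 * c ^ 6 - 138534241 * c ^ 7)) = 0 := by
  unfold ARM_Q8 at hQ
  linear_combination (4500 * T) * hs + (1 *
    (20112 - 59724 * c + 84235 * c ^ 2 - 62956 * c ^ 3 + 22979 * c ^ 4 - 4625 * c ^ 5 + 1536 *
    c ^ 6 - 333 * c ^ 7)) * hT +
    (-249669481236 + 575987030118 * c - 501161596903 * c ^ 2 + 243322159651 * c ^ 3 -
    59693975573 * c ^ 4 - 1829745547 * c ^ 5 + 2290967184 * c ^ 6) * hQ

theorem ARE_y2 {K : Type*} [CommRing K] (s c T : K) (hQ : ARM_Q8 c = 0) (hs : 1500 * s =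
    (20112 - 59724 * c + 84235 * c ^ 2 - 62956 * c ^ 3 + 22979 * c ^ 4 - 4625 * c ^ 5 + 1536 *
    c ^ 6 - 333 * c ^ 7))
    (hT : 3000 * T =
    (801638784 - 5111072328 * c + 11911874300 * c ^ 2 - 15915386022 * c ^ 3 + 11538523063 * c ^
    4 - 4513218755 * c ^ 5 + 1008537507 * c ^ 6 - 138534241 * c ^ 7)) :
    750 * (6000 * (
    (-3080 + 54542 * c - 393355 * c ^ 2 + 1309412 * c ^ 3 - 1778543 * c ^ 4 + 468014 * c ^ 5 +
    830801 * c ^ 6 - 770459 * c ^ 7 + 334170 * c ^ 8 - 77815 * c ^ 9 + 7575 * c ^ 10 - 270 * c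
    ^ 11) + s * T) -
    (3394000176 - 11694582012 * c + 17072312860 * c ^ 2 - 10460200093 * c ^ 3 - 3224806098 * c
    ^ 4 + 7177859870 * c ^ 5 - 3070801442 * c ^ 6 + 424741731 * c ^ 7)) = 0 := by
  unfold ARM_Q8 at hQ
  linear_combination (3000 * T) * hs + (1 *
    (20112 - 59724 * c + 84235 * c ^ 2 - 62956 * c ^ 3 + 22979 * c ^ 4 - 4625 * c ^ 5 + 1536 *
    c ^ 6 - 333 * c ^ 7)) * hT +
    (94188882582 - 614805945216 * c + 976646437336 * c ^ 2 - 645749828037 * c ^ 3 +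
    223256754001 * c ^ 4 - 47290353111 * c ^ 5 + 5125766917 * c ^ 6) * hQ

theorem ARE_y1 {K : Type*} [CommRing K] (s c T : K) (hQ : ARM_Q8 c = 0) (hs : 1500 * s =
    (20112 - 59724 * c + 84235 * c ^ 2 - 62956 * c ^ 3 + 22979 * c ^ 4 - 4625 * c ^ 5 + 1536 *
    c ^ 6 - 333 * c ^ 7))
    (hT : 6000 * T =
    (3394000176 - 11694582012 * c + 17072312860 * c ^ 2 - 10460200093 * c ^ 3 - 3224806098 * c
    ^ 4 + 7177859870 * c ^ 5 - 3070801442 * c ^ 6 + 424741731 * c ^ 7)) :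
    750 * (12000 * (
    (-10288 + 47172 * c - 48816 * c ^ 2 - 344580 * c ^ 3 + 1455951 * c ^ 4 - 2085248 * c ^ 5 +
    1082122 * c ^ 6 + 23494 * c ^ 7 - 204405 * c ^ 8 + 96508 * c ^ 9 - 18660 * c ^ 10 + 990 * c
    ^ 11) + s * T) -
    (-7572693744 + 37825860348 * c - 92968630000 * c ^ 2 + 133801272577 * c ^ 3 - 120178500933
    * c ^ 4 + 62939825605 * c ^ 5 - 16929919537 * c ^ 6 + 1633808256 * c ^ 7)) = 0 := by
  unfold ARM_Q8 at hQ
  linear_combination (6000 * T) * hs + (1 *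
    (20112 - 59724 * c + 84235 * c ^ 2 - 62956 * c ^ 3 + 22979 * c ^ 4 - 4625 * c ^ 5 + 1536 *
    c ^ 6 - 333 * c ^ 7)) * hT +
    (512826804498 - 1226494649034 * c + 723682699469 * c ^ 2 + 313835405362 * c ^ 3 -
    436558994756 * c ^ 4 + 144201057986 * c ^ 5 - 15715444047 * c ^ 6) * hQ

theorem ARE_y0 {K : Type*} [CommRing K] (s c T : K) (hQ : ARM_Q8 c = 0) (hs : 1500 * s =
    (20112 - 59724 * c + 84235 * c ^ 2 - 62956 * c ^ 3 + 22979 * c ^ 4 - 4625 * c ^ 5 + 1536 *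
    c ^ 6 - 333 * c ^ 7))
    (hT : 12000 * T =
    (-7572693744 + 37825860348 * c - 92968630000 * c ^ 2 + 133801272577 * c ^ 3 - 120178500933
    * c ^ 4 + 62939825605 * c ^ 5 - 16929919537 * c ^ 6 + 1633808256 * c ^ 7)) :
    1250 * (43200 * (
    (5472 - 36224 * c + 117798 * c ^ 2 - 208345 * c ^ 3 + 82062 * c ^ 4 + 428946 * c ^ 5 -
    764271 * c ^ 6 + 468473 * c ^ 7 - 98304 * c ^ 8 - 1952 * c ^ 9 + 7515 * c ^ 10 - 1170 * c ^
    11) + s * T) -
    (-63562971744 + 395453706312 * c - 1117801596652 * c ^ 2 + 1917080139754 * c ^ 3 -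
    2105906621247 * c ^ 4 + 1483272063667 * c ^ 5 - 604176774379 * c ^ 6 + 109292551245 * c ^
    7)) = 0 := by
  unfold ARM_Q8 at hQ
  linear_combination (36000 * T) * hs + (3 *
    (20112 - 59724 * c + 84235 * c ^ 2 - 62956 * c ^ 3 + 22979 * c ^ 4 - 4625 * c ^ 5 + 1536 *
    c ^ 6 - 333 * c ^ 7)) * hT +
    (-2619144771236 + 11566700788818 * c - 22940818596753 * c ^ 2 + 21385535496801 * c ^ 3 -
    10064815139523 * c ^ 4 + 2232123651903 * c ^ 5 - 181352716416 * c ^ 6) * hQ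

theorem ARE_fin {K : Type*} [CommRing K] (c : K) (hQ : ARM_Q8 c = 0) (hx :
    (-18462511206864 + 59958793270788 * c - 98155052346500 * c ^ 2 + 68077397697187 * c ^ 3 +
    12194267899102 * c ^ 4 - 66812285354770 * c ^ 5 + 49035480848078 * c ^ 6 - 12605937113389 *
    c ^ 7) = 0)
    (hy :
    (-63562971744 + 395453706312 * c - 1117801596652 * c ^ 2 + 1917080139754 * c ^ 3 -
    2105906621247 * c ^ 4 + 1483272063667 * c ^ 5 - 604176774379 * c ^ 6 + 109292551245 * c ^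
    7) = 0) : (180108582912000000 : K) = 0 := by
  unfold ARM_Q8 at hQ
  linear_combination -
    (92834304511378895167005847818776187533321087647549942613085503616 -
    343386990706224559306526468840729251183782102107927477882622364720 * c +
    625715313128282521752732704808785839240213529533367111492833752472 * c ^ 2 -
    613650503131052146602582606108335165145101508925314664897962123552 * c ^ 3 +
    293459036389319292357336500906979504966591446045960202668129112424 * c ^ 4 -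
    65132718635701176721865145217060594053333730649891589321002269240 * c ^ 5 +
    14400739870294961352186645320003061394668040178660309773902427248 * c ^ 6 -
    6197006033122523288700932317922309193987385590595595088886822728 * c ^ 7) * hx * (-1) +
    (-503824653988930658163899327753582755879795776976630203824906354112 +
    2922861800553397205842759315454724976437985159099246538429479581642 * c -
    5798041562712067189398364914613960941197164910391164292531734107677 * c ^ 2 +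
    6278923850561045009739810741316995955838949725772561862210396064540 * c ^ 3 -
    3282223517327278851649396304816898452204451171045440912770136085091 * c ^ 4 +
    754467657216656927032733535431235159394755892035502979886349140425 * c ^ 5 -
    143536810798551153179075866376859328619921042543227676501882292546 * c ^ 6 +
    75453278573118040828874292187951892046833697128709692298382766967 * c ^ 7) * hy -
    (-11680068022064785203589783446910538169087274974203696821334526944187327734784 +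
    34259969191695202092072900185667433469847109117846067603553814801308332399380 * c -
    42737958018818516728027318225924327789311036968667862624213922385673540783736 * c ^ 2 +
    7099896670129759341128520257422784525207374825798082346454239584376247644957 * c ^ 3 +
    39098180880710312187590995195923086912462717932003607370091065196478130239071 * c ^ 4 -
    35152720236867958372199882765854067269715068363510405655280724855394127443063 * c ^ 5 +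
    9596172184432280322761144853124161169326862058913760256256644373609979892123 * c ^ 6) * hQ

theorem ARE_cc {K : Type*} [Field K] (h2 : (2 : K) ≠ 0) (h3 : (3 : K) ≠ 0) (h5 : (5 : K) ≠ 0)
    (a b c : ℕ) {g x : K} (hg : g = 2 ^ a * 3 ^ b * 5 ^ c) (h : g * x = 0) : x = 0 := by
  rcases mul_eq_zero.1 h with h | h
  · rw [hg] at h
    exact absurd h (mul_ne_zero (mul_ne_zero (pow_ne_zero _ h2) (pow_ne_zero _ h3))
      (pow_ne_zero _ h5))
  · exact h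

theorem ARE_xH {K : Type*} [Field K] (s c : K) (h2 : (2 : K) ≠ 0) (h3 : (3 : K) ≠ 0)
    (h5 : (5 : K) ≠ 0) (hQ : ARM_Q8 c = 0) (hs : 1500 * s =
    (20112 - 59724 * c + 84235 * c ^ 2 - 62956 * c ^ 3 + 22979 * c ^ 4 - 4625 * c ^ 5 + 1536 *
    c ^ 6 - 333 * c ^ 7)) :
    432000 * MX s c =
    (-18462511206864 + 59958793270788 * c - 98155052346500 * c ^ 2 + 68077397697187 * c ^ 3 +
    12194267899102 * c ^ 4 - 66812285354770 * c ^ 5 + 49035480848078 * c ^ 6 - 12605937113389 *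
    c ^ 7) := by
  have t10 := sub_eq_zero.1 (ARE_cc h2 h3 h5 2 1 0 (by norm_num) (ARE_x10 s c
      (-8 + 24 * c - 24 * c ^ 2 + 8 * c ^ 3) hQ hs (by ring)))
  have t9 := sub_eq_zero.1 (ARE_cc h2 h3 h5 1 1 4 (by norm_num) (ARE_x9 s c
      _ hQ hs t10))
  have t8 := sub_eq_zero.1 (ARE_cc h2 h3 h5 2 1 2 (by norm_num) (ARE_x8 s c
      _ hQ hs t9))
  have t7 := sub_eq_zero.1 (ARE_cc h2 h3 h5 2 1 3 (by norm_num) (ARE_x7 s c
      _ hQ hs t8))
  have t6 := sub_eq_zero.1 (ARE_cc h2 h3 h5 2 1 3 (by norm_num) (ARE_x6 s c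
      _ hQ hs t7))
  have t5 := sub_eq_zero.1 (ARE_cc h2 h3 h5 1 0 4 (by norm_num) (ARE_x5 s c
      _ hQ hs t6))
  have t4 := sub_eq_zero.1 (ARE_cc h2 h3 h5 1 2 3 (by norm_num) (ARE_x4 s c
      _ hQ hs t5))
  have t3 := sub_eq_zero.1 (ARE_cc h2 h3 h5 1 1 2 (by norm_num) (ARE_x3 s c
      _ hQ hs t4))
  have t2 := sub_eq_zero.1 (ARE_cc h2 h3 h5 1 1 3 (by norm_num) (ARE_x2 s c
      _ hQ hs t3))
  have t1 := sub_eq_zero.1 (ARE_cc h2 h3 h5 1 0 3 (by norm_num) (ARE_x1 s c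
      _ hQ hs t2))
  have t0 := sub_eq_zero.1 (ARE_cc h2 h3 h5 1 1 3 (by norm_num) (ARE_x0 s c
      _ hQ hs t1))
  simp only [MX, hor2, hor, List.foldr, Int.cast_ofNat, Int.cast_neg, Int.cast_zero,
    Int.cast_one]
  linear_combination t0

theorem ARE_yH {K : Type*} [Field K] (s c : K) (h2 : (2 : K) ≠ 0) (h3 : (3 : K) ≠ 0)
    (h5 : (5 : K) ≠ 0) (hQ : ARM_Q8 c = 0) (hs : 1500 * s =
    (20112 - 59724 * c + 84235 * c ^ 2 - 62956 * c ^ 3 + 22979 * c ^ 4 - 4625 * c ^ 5 + 1536 *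
    c ^ 6 - 333 * c ^ 7)) :
    43200 * MY s c =
    (-63562971744 + 395453706312 * c - 1117801596652 * c ^ 2 + 1917080139754 * c ^ 3 -
    2105906621247 * c ^ 4 + 1483272063667 * c ^ 5 - 604176774379 * c ^ 6 + 109292551245 * c ^
    7) := by
  have t9 := sub_eq_zero.1 (ARE_cc h2 h3 h5 2 1 0 (by norm_num) (ARE_y9 s c
      (8 - 24 * c + 24 * c ^ 2 - 8 * c ^ 3) hQ hs (by ring)))
  have t8 := sub_eq_zero.1 (ARE_cc h2 h3 h5 1 1 4 (by norm_num) (ARE_y8 s c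
      _ hQ hs t9))
  have t7 := sub_eq_zero.1 (ARE_cc h2 h3 h5 2 1 2 (by norm_num) (ARE_y7 s c
      _ hQ hs t8))
  have t6 := sub_eq_zero.1 (ARE_cc h2 h3 h5 2 1 3 (by norm_num) (ARE_y6 s c
      _ hQ hs t7))
  have t5 := sub_eq_zero.1 (ARE_cc h2 h3 h5 2 1 3 (by norm_num) (ARE_y5 s c
      _ hQ hs t6))
  have t4 := sub_eq_zero.1 (ARE_cc h2 h3 h5 1 0 3 (by norm_num) (ARE_y4 s c
      _ hQ hs t5))
  have t3 := sub_eq_zero.1 (ARE_cc h2 h3 h5 1 2 3 (by norm_num) (ARE_y3 s c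
      _ hQ hs t4))
  have t2 := sub_eq_zero.1 (ARE_cc h2 h3 h5 1 1 3 (by norm_num) (ARE_y2 s c
      _ hQ hs t3))
  have t1 := sub_eq_zero.1 (ARE_cc h2 h3 h5 1 1 3 (by norm_num) (ARE_y1 s c
      _ hQ hs t2))
  have t0 := sub_eq_zero.1 (ARE_cc h2 h3 h5 1 0 4 (by norm_num) (ARE_y0 s c
      _ hQ hs t1))
  simp only [MY, hor2, hor, List.foldr, Int.cast_ofNat, Int.cast_neg, Int.cast_zero,
    Int.cast_one]
  linear_combination t0

theorem ARE_small (p m N M : ℕ) (hp : p = 109 ∨ p = 233 ∨ p = 1117) (hm : 3 ≤ m) (hN : 2 ≤ N)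
    (hM : 2 ≤ M) (h5 : 5 ≤ N * M) (h : m * (N * M) + 1 = p) :
    ¬ ((p : ℤ) ∣ TT (N : ℤ) M) := by
  have key : ∀ q ∈ [109, 233, 1117], ∀ a ∈ Nat.divisors (q - 1), ∀ b ∈ Nat.divisors (q - 1),
      5 ≤ a * b → a * b ∣ q - 1 → 3 * (a * b) ≤ q - 1 → 2 ≤ a → 2 ≤ b → ¬ ((q : ℤ) ∣ TT (a : ℤ) b) := by
    decide +kernel
  have hmul : p - 1 = m * (N * M) := by omega
  have hp0 : p - 1 ≠ 0 := by
    rcases hp with h | h | h <;> omega
  have h3 : 3 * (N * M) ≤ m * (N * M) := Nat.mul_le_mul_right _ hm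
  refine key p ?_ N ?_ M ?_ h5 ⟨m, by rw [hmul]; ring⟩ (by omega) hN hM
  · rcases hp with h | h | h <;> simp [h]
  · rw [Nat.mem_divisors]
    exact ⟨⟨m * M, by rw [hmul]; ring⟩, hp0⟩
  · rw [Nat.mem_divisors]
    exact ⟨⟨m * N, by rw [hmul]; ring⟩, hp0⟩

theorem ARE_cast {p : ℕ} {N M : ℕ} (h : TT (N : ZMod p) M = 0) : (p : ℤ) ∣ TT (N : ℤ) M := by
  rw [← ZMod.intCast_zmod_eq_zero_iff_dvd]
  rw [← h]
  unfold TT
  push_cast
  ring

theorem ARE_ne2 {p : ℕ} [Fact p.Prime] (hp : 16 ≤ p) (n : ℕ) (h : ∀ q, q.Prime → q ∣ n → q < 16) :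
    n ≠ 0 → ((n : ℕ) : ZMod p) ≠ 0 := by
  intro h0 h1
  rw [ZMod.natCast_eq_zero_iff] at h1
  have := h p (Fact.out) h1
  omega

theorem ARE_smooth {q a b c : ℕ} (hq : q.Prime) (h : q ∣ 2 ^ a * 3 ^ b * 5 ^ c) : q < 16 := by
  rcases (Nat.Prime.dvd_mul hq).1 h with h | h
  · rcases (Nat.Prime.dvd_mul hq).1 h with h | h
    · have := Nat.le_of_dvd (by norm_num) (hq.dvd_of_dvd_pow h); omega
    · have := Nat.le_of_dvd (by norm_num) (hq.dvd_of_dvd_pow h); omega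
  · have := Nat.le_of_dvd (by norm_num) (hq.dvd_of_dvd_pow h); omega

theorem ARE_unit {p : ℕ} [Fact p.Prime] (hp : 16 ≤ p) (n a b c : ℕ) (hn : n = 2 ^ a * 3 ^ b * 5 ^ c) :
    ((n : ℕ) : ZMod p) ≠ 0 := by
  apply ARE_ne2 hp n
  · intro q hq h
    rw [hn] at h
    exact ARE_smooth hq h
  · rw [hn]; positivity

theorem ARE_canc {K : Type*} [Field K] {g x : K} (hg : g ≠ 0) (h : g * x = 0) : x = 0 := by
  rcases mul_eq_zero.1 h with h | h
  · exact absurd h hg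
  · exact h

theorem ARE : ARE_stmt := by
  intro p _ m N M hm hN hM h5 hp hT1 hM1 hT2 hM2
  have hprime : p.Prime := Fact.out
  have h3 : 3 * (N * M) ≤ m * (N * M) := Nat.mul_le_mul_right _ hm
  have hp16 : 16 ≤ p := by omega
  have hNp : N ≤ N * M := Nat.le_mul_of_pos_right _ (by omega)
  have hMp : M ≤ N * M := Nat.le_mul_of_pos_left _ (by omega)
  have hmp : 5 * m + 1 ≤ p := by
    have : m * 5 ≤ m * (N * M) := Nat.mul_le_mul_left _ h5
    omega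
  have hsmall : ¬ (p = 109 ∨ p = 233 ∨ p = 1117) := by
    intro h
    exact ARE_small p m N M h hm hN hM h5 hp (ARE_cast hT1)
  have hx0 : (N : ZMod p) ≠ 0 := ARM_ne (by omega) (by omega)
  have hy0 : (M : ZMod p) ≠ 0 := ARM_ne (by omega) (by omega)
  by_cases hNM : N = M
  · subst hNM
    have hN3 : 3 ≤ N := by
      by_contra h
      have : N = 2 := by omega
      subst this
      omega
    have hN3' : 9 ≤ N * N := Nat.mul_le_mul hN3 hN3
    have hx1 : (N : ZMod p) + 1 ≠ 0 := by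
      exact_mod_cast ARM_ne (p := p) (k := N + 1) (by omega) (by omega)
    have hx2 : (N : ZMod p) + 2 ≠ 0 := by
      exact_mod_cast ARM_ne (p := p) (k := N + 2) (by omega) (by omega)
    have hx3 : (N : ZMod p) - 2 ≠ 0 := by
      have := ARM_ne (p := p) (k := N - 2) (by omega) (by omega)
      rwa [Nat.cast_sub (by omega), Nat.cast_ofNat] at this
    have h2 : (2 : ZMod p) ≠ 0 := by
      exact_mod_cast ARM_ne (p := p) (k := 2) (by norm_num) (by omega)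
    rw [ARE_diagT] at hT1
    rw [ARE_diagM] at hM1
    have e1 := ARE_canc (mul_ne_zero h2 (mul_ne_zero (mul_ne_zero hx0 (pow_ne_zero 3 hx1)) hx3)) hT1
    have e2 := ARE_canc (mul_ne_zero (mul_ne_zero (mul_ne_zero hx0 (pow_ne_zero 6 hx1)) hx2) hx3) hM1
    have hK := ARE_diagK _ e1 e2
    have hK2 : ((264759068206080 : ℕ) : ZMod p) = 0 := by exact_mod_cast hK
    rw [ZMod.natCast_eq_zero_iff] at hK2
    have hK3 : (264759068206080 : ℕ) = (2 ^ 10 * 3 ^ 7 * 5 ^ 1) * (7 * (7 * (19 * (109 * 233)))) := by norm_num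
    rw [hK3] at hK2
    have hp28 : 28 ≤ p := by omega
    have hlt : ∀ {q : ℕ}, 0 < q → p ∣ q → p ≤ q := fun h1 h2 => Nat.le_of_dvd h1 h2
    rcases (Nat.Prime.dvd_mul hprime).1 hK2 with h | h
    · have := ARE_smooth hprime h
      omega
    rcases (Nat.Prime.dvd_mul hprime).1 h with h | h
    · have := hlt (by norm_num) h
      omega
    rcases (Nat.Prime.dvd_mul hprime).1 h with h | h
    · have := hlt (by norm_num) h
      omega
    rcases (Nat.Prime.dvd_mul hprime).1 h with h | h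
    · have := hlt (by norm_num) h
      omega
    rcases (Nat.Prime.dvd_mul hprime).1 h with h | h
    · exact hsmall (Or.inl ((Nat.prime_dvd_prime_iff_eq hprime (by norm_num)).1 h))
    · exact hsmall (Or.inr (Or.inl ((Nat.prime_dvd_prime_iff_eq hprime (by norm_num)).1 h)))
  · have hne : (N : ZMod p) - M ≠ 0 := by
      intro h
      have h1 : (N : ZMod p) = M := sub_eq_zero.1 h
      rw [ZMod.natCast_eq_natCast_iff'] at h1
      rw [Nat.mod_eq_of_lt (by omega), Nat.mod_eq_of_lt (by omega)] at h1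
      exact hNM h1
    have hmc : (m : ZMod p) * ((N : ZMod p) * M) = -1 := by
      have h : ((m * (N * M) + 1 : ℕ) : ZMod p) = 0 := by rw [hp]; exact ZMod.natCast_self p
      push_cast at h
      linear_combination h
    generalize (N : ZMod p) = x at *
    generalize (M : ZMod p) = y at *
    have hc0 : x * y ≠ 0 := mul_ne_zero hx0 hy0
    have hc1 : x * y - 1 ≠ 0 := by
      intro h
      have h1 : ((m + 1 : ℕ) : ZMod p) = 0 := by
        push_cast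
        linear_combination hmc - (m : ZMod p) * h
      exact ARM_ne (by omega) (by omega) h1
    have hc2 : x * y - 2 ≠ 0 := by
      intro h
      have h1 : ((2 * m + 1 : ℕ) : ZMod p) = 0 := by
        push_cast
        linear_combination hmc - (m : ZMod p) * h
      exact ARM_ne (by omega) (by omega) h1
    have hc3 : 2 * (x * y) + 1 ≠ 0 := by
      intro h
      have h1 : ((m - 2 : ℕ) : ZMod p) = 0 := by
        rw [Nat.cast_sub (by omega)]
        push_cast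
        linear_combination (m : ZMod p) * h - 2 * hmc
      exact ARM_ne (by omega) (by omega) h1
    rw [ARM_TT] at hT1 hT2
    rw [ARE_M5] at hM1 hM2
    rw [add_comm y x, mul_comm y x] at hT2 hM2
    have hbe : ARM_be (x + y) (x * y) = 0 := by
      apply ARE_canc hne
      linear_combination hT1 - hT2
    have hal : ARM_al (x + y) (x * y) = 0 := by
      linear_combination hT1 - x * hbe
    have hMY : MY (x + y) (x * y) = 0 := by
      apply ARE_canc hne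
      linear_combination hM1 - hM2
    have hMX : MX (x + y) (x * y) = 0 := by
      linear_combination hM1 - x * hMY
    generalize x + y = s at *
    generalize x * y = c at *
    have hQ : ARM_Q8 c = 0 := by
      have h := ARM_cert s c
      simp only [hal, hbe, mul_zero, add_zero] at h
      refine ARE_canc (g := -24 * c ^ 3 * (c - 1) ^ 3 * (c - 2) ^ 2 * (2 * c + 1) ^ 2) ?_ h.symm
      have h24 : (-24 : ZMod p) ≠ 0 := by
        rw [neg_ne_zero]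
        exact_mod_cast ARE_unit (p := p) hp16 24 3 1 0 (by norm_num)
      exact mul_ne_zero (mul_ne_zero (mul_ne_zero (mul_ne_zero h24 (pow_ne_zero 3 hc0))
        (pow_ne_zero 3 hc1)) (pow_ne_zero 2 hc2)) (pow_ne_zero 2 hc3)
    have hW := ARE_W s c
    simp only [hal, hbe, mul_zero, add_zero] at hW
    have hW2 := ARE_canc (mul_ne_zero (by exact_mod_cast ARE_unit (p := p) hp16 12 2 1 0 (by norm_num)) (mul_ne_zero hc1 hc2)) hW.symm
    have hs := sub_eq_zero.1 (ARE_canc (by exact_mod_cast ARE_unit (p := p) hp16 5184000 9 4 3 (by norm_num)) (ARE_s s c hQ hW2))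
    have h2 : (2 : ZMod p) ≠ 0 := by exact_mod_cast ARE_unit (p := p) hp16 2 1 0 0 (by norm_num)
    have h3 : (3 : ZMod p) ≠ 0 := by exact_mod_cast ARE_unit (p := p) hp16 3 0 1 0 (by norm_num)
    have h5 : (5 : ZMod p) ≠ 0 := by exact_mod_cast ARE_unit (p := p) hp16 5 0 0 1 (by norm_num)
    have hx := ARE_xH s c h2 h3 h5 hQ hs
    have hy := ARE_yH s c h2 h3 h5 hQ hs
    rw [hMX, mul_zero] at hx
    rw [hMY, mul_zero] at hy
    have hK := ARE_fin c hQ hx.symm hy.symm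
    have hK2 : ((180108582912000000 : ℕ) : ZMod p) = 0 := by exact_mod_cast hK
    rw [ZMod.natCast_eq_zero_iff] at hK2
    have hK3 : (180108582912000000 : ℕ) = (2 ^ 19 * 3 ^ 9 * 5 ^ 6) * 1117 := by norm_num
    rw [hK3] at hK2
    rcases (Nat.Prime.dvd_mul hprime).1 hK2 with h | h
    · have := ARE_smooth hprime h
      omega
    · exact hsmall (Or.inr (Or.inr ((Nat.prime_dvd_prime_iff_eq hprime (by norm_num)).1 h)))

end Pool.Agent.SK
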