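import Pool.Agent.helper77.SK.Spec2
import Pool.Agent.helper9.SK.EL

/-! Row sk:ELE: elimination of order five. -/

set_option autoImplicit false
set_option maxHeartbeats 4000000
set_option linter.unusedVariables false
set_option linter.unusedSimpArgs false

namespace Pool.Agent.SK

def ELE_e1 {K : Type*} [CommRing K] (N M : K) : K :=
  hor2
    [[-2, 1, 3, -2],
    [0, 4, 0, -6, 2],
    [0, 0, -2, -1, 3]]
    N M

def ELE_e2 {K : Type*} [CommRing K] (N M : K) : K :=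
  hor2
    [[-2, 2],
    [2, 6, -2],
    [2, 1, -3]]
    N M

def ELE_a1 {K : Type*} [CommRing K] (N M : K) : K :=
  hor2
    [[6, 5, -5, -8, -7, 9],
    [0, -18, -15, 12, 9, 24, -12],
    [0, 0, 18, 15, -15, 0, -21, 3],
    [0, 0, 0, -6, -5, 8, -1, 4]]
    N M

def ELE_a2 {K : Type*} [CommRing K] (N M : K) : K :=
  hor2
    [[-6, -2, 21, -12, -1],
    [-6, -2, 15, -47, 15, 1],
    [-6, 1, 16, -16, 32, -3],
    [0, 6, 5, -8, 3, -6]]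
    N M

def ELE_a3 {K : Type*} [CommRing K] (N M : K) : K :=
  hor2
    [[-6, 5, 1],
    [6, 21, -4, -1],
    [6, 5, -11],
    [0, 0, 0, 2]]
    N M

def ELE_f1 {K : Type*} [CommRing K] (N M : K) : K :=
  hor2
    [[-48, -172, -244, -31, 313, 321, 155, -190, -104],
    [0, 192, 592, 776, 208, -748, -620, -676, 108, 168],
    [0, 0, -288, -744, -816, -250, 910, 390, 698, 172, -72],
    [0, 0, 0, 192, 400, 280, 96, -588, -108, -180, -100, 8],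
    [0, 0, 0, 0, -48, -76, 4, -23, 113, 17, 3, 10]]
    N M

def ELE_f2 {K : Type*} [CommRing K] (N M : K) : K :=
  hor2
    [[192, 304, -88, -290, -551, 205, 219, 9],
    [48, -404, -692, 557, 272, 1473, 54, -336, -12],
    [48, 28, 400, 723, -1144, 37, -1215, -449, 129, 3],
    [0, -96, -152, -208, -416, 867, -8, 295, 210, -12],
    [0, 0, 48, 76, 20, 81, -192, -11, -2, -20]]
    N M

def ELE_f3 {K : Type*} [CommRing K] (N M : K) : K :=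
  hor2
    [[-48, -76, 192, -2, -60, -6],
    [-48, -52, 278, -422, -95, 90, 9],
    [-48, 20, 264, -296, 297, 156, -30, -3],
    [0, 72, 54, -215, 100, -67, -64],
    [0, 0, -24, -26, 51, -6, 0, 5]]
    N M

def ELE_f4 {K : Type*} [CommRing K] (N M : K) : K :=
  hor2
    [[0, -48, 136, -77, -10, -1],
    [-72, -198, 151, -345, 113, 10, 1],
    [-72, -6, 315, -154, 299, -42],
    [0, 72, 78, -141, 65, -100, 6],
    [0, 0, 0, 0, 24, -14, 10]]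
    N M

def ELE_f5 {K : Type*} [CommRing K] (N M : K) : K :=
  hor2
    [[-72, 52, 18, 2],
    [72, 280, -25, -15, -2],
    [72, 78, -148, 3],
    [0, 0, 0, 50],
    [0, 0, 0, 0, -5]]
    N M

def ELE_g1 {K : Type*} [CommRing K] (N M : K) : K :=
  hor2
    [[912, 3076, 3948, -1155, -7031, -5359, 211, 5638, 592, -832],
    [0, -4080, -12028, -15340, 217, 19205, 14893, 9887, -10546, -3552, 1344],
    [0, 0, 7200, 18312, 21816, 2910, -24510, -13398, -19722, 3552, 4416, -576],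
    [0, 0, 0, -6240, -13528, -13368, -3018, 18914, 4666, 11654, 2456, -1600, 64],
    [0, 0, 0, 0, 2640, 4852, 2908, 1253, -7595, -955, -2057, -1190, 144],
    [0, 0, 0, 0, 0, -432, -684, 36, -207, 1017, 153, 27, 90]]
    N M

def ELE_g2 {K : Type*} [CommRing K] (N M : K) : K :=
  hor2
    [[-960, -944, 1192, 1986, 1987, -3021, -755, 503, 12],
    [-432, 2100, 1620, -5581, -3770, -9458, 4945, 2749, -797, -16],
    [-432, -108, -3084, -2327, 10367, 1575, 13158, -729, -2913, 329, 4],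
    [0, 1008, 1452, 2880, 2793, -9363, 379, -6840, -1925, 1011, -35],
    [0, 0, -720, -1140, -996, -1385, 3961, -137, 1159, 790, -92],
    [0, 0, 0, 144, 228, 60, 243, -576, -33, -6, -60]]
    N M

def ELE_g3 {K : Type*} [CommRing K] (N M : K) : K :=
  hor2
    [[48, 76, -864, 602, 260, -114, -8],
    [432, 900, -602, 2918, -907, -770, 177, 12],
    [432, -324, -2340, 1146, -3523, -21, 740, -66, -4],
    [0, -792, -426, 2151, -844, 1798, 520, -250, 3],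
    [0, 0, 432, 396, -912, 242, -329, -209, 20],
    [0, 0, 0, -72, -78, 153, -18, 0, 15]]
    N M

def ELE_g4 {K : Type*} [CommRing K] (N M : K) : K :=
  hor2
    [[-96, 24, -528, 795, -186, -9],
    [408, 1170, -225, 2203, -1884, 296, 12],
    [504, 66, -1851, 697, -3066, 1499, -126, -3],
    [96, -472, -516, 1178, -777, 1771, -456, 16],
    [0, -96, -32, 42, -473, 323, -410, 46],
    [0, 0, 0, 0, 0, 72, -42, 30]]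
    N M

def ELE_g5 {K : Type*} [CommRing K] (N M : K) : K :=
  hor2
    [[264, -324, 54, 6],
    [-168, -1080, 625, -115, -12],
    [-360, -462, 856, -586, 51, 6],
    [-192, -280, -150, -610, 197],
    [0, 0, 0, 0, 155, -20],
    [0, 0, 0, 0, 0, -15]]
    N M

theorem ELE_he1 {K : Type} [Field K] {N M : K} (h2 : (2 : K) ≠ 0) (h3 : (3 : K) ≠ 0) (h4 : (4 : K) ≠ 0)
    (h6 : (6 : K) ≠ 0) (h12 : (12 : K) ≠ 0) (h24 : (24 : K) ≠ 0)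
    (hM : M ≠ 0) (hM1 : M + 1 ≠ 0) (hM2 : M + 2 ≠ 0) (hM3 : M + 3 ≠ 0) (hM4 : M + 4 ≠ 0)
    (k1 k21 : K)
    (hk21 : k21 = (N * M - 1) * (N * M - 2) / (M * (M + 1) * (M + 2)) - (M - 1) / 2 * k1 ^ 2)
    (hk1 : k1 = (N * M - 1) / (M * (M + 1))) :
    3 * (M * (M + 1)) * k21 + ((M * (M + 1)) - 2 * (N * M - 1)) * k1
      = ELE_e1 N M / (2 * M * (M + 1) * (M + 2)) := by
  subst hk21 hk1
  simp only [ELE_e1, hor2, hor, List.foldr, K1, K2, Int.cast_ofNat, Int.cast_neg, Int.cast_zero,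
    Int.cast_one]
  field_simp
  ring

theorem ELE_he2 {K : Type} [Field K] {N M : K} (h2 : (2 : K) ≠ 0) (h3 : (3 : K) ≠ 0) (h4 : (4 : K) ≠ 0)
    (h6 : (6 : K) ≠ 0) (h12 : (12 : K) ≠ 0) (h24 : (24 : K) ≠ 0)
    (hM : M ≠ 0) (hM1 : M + 1 ≠ 0) (hM2 : M + 2 ≠ 0) (hM3 : M + 3 ≠ 0) (hM4 : M + 4 ≠ 0)
    (k22 : K)
    (hk22 : k22 = -((N * M - 1) * (N * M - 2) / (M * (M + 1) * (M + 2)))) :
    3 * (M * (M + 1)) * k22 + (N * (N + 1)) - 2 * (N * M - 1)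
      = ELE_e2 N M / (M + 2) := by
  subst hk22
  simp only [ELE_e2, hor2, hor, List.foldr, K1, K2, Int.cast_ofNat, Int.cast_neg, Int.cast_zero,
    Int.cast_one]
  field_simp
  ring

theorem ELE_ha1 {K : Type} [Field K] {N M : K} (h2 : (2 : K) ≠ 0) (h3 : (3 : K) ≠ 0) (h4 : (4 : K) ≠ 0)
    (h6 : (6 : K) ≠ 0) (h12 : (12 : K) ≠ 0) (h24 : (24 : K) ≠ 0)
    (hM : M ≠ 0) (hM1 : M + 1 ≠ 0) (hM2 : M + 2 ≠ 0) (hM3 : M + 3 ≠ 0) (hM4 : M + 4 ≠ 0)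
    (k1 k21 g k31 : K)
    (hk31 : k31 = g - (M - 1) * k1 * k21 - (M - 1) * (M - 2) / 6 * k1 ^ 3)
    (hg : g = (N * M - 1) * (N * M - 2) * (N * M - 3) / (M * (M + 1) * (M + 2) * (M + 3)))
    (hk21 : k21 = (N * M - 1) * (N * M - 2) / (M * (M + 1) * (M + 2)) - (M - 1) / 2 * k1 ^ 2)
    (hk1 : k1 = (N * M - 1) / (M * (M + 1))) :
    (M * (M + 1)) * (6 * k31 + 3 * k21) - (N * M - 1) * (3 * k21)
      = ELE_a1 N M / (2 * M ^ 2 * (M + 1) ^ 2 * (M + 2) * (M + 3)) := by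
  subst hk31 hg hk21 hk1
  simp only [ELE_a1, hor2, hor, List.foldr, K1, K2, Int.cast_ofNat, Int.cast_neg, Int.cast_zero,
    Int.cast_one]
  field_simp
  ring

theorem ELE_ha2 {K : Type} [Field K] {N M : K} (h2 : (2 : K) ≠ 0) (h3 : (3 : K) ≠ 0) (h4 : (4 : K) ≠ 0)
    (h6 : (6 : K) ≠ 0) (h12 : (12 : K) ≠ 0) (h24 : (24 : K) ≠ 0)
    (hM : M ≠ 0) (hM1 : M + 1 ≠ 0) (hM2 : M + 2 ≠ 0) (hM3 : M + 3 ≠ 0) (hM4 : M + 4 ≠ 0)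
    (k1 k22 g k32 : K)
    (hk32 : k32 = -2 * g - (M - 1) * k1 * k22)
    (hg : g = (N * M - 1) * (N * M - 2) * (N * M - 3) / (M * (M + 1) * (M + 2) * (M + 3)))
    (hk22 : k22 = -((N * M - 1) * (N * M - 2) / (M * (M + 1) * (M + 2))))
    (hk1 : k1 = (N * M - 1) / (M * (M + 1))) :
    (M * (M + 1)) * (6 * k32 + 3 * k22 + k1) - (N * M - 1) * (3 * k22 + 4 * k1) + (N * (N + 1)) * k1
      = ELE_a2 N M / (M * (M + 1) * (M + 2) * (M + 3)) := by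
  subst hk32 hg hk22 hk1
  simp only [ELE_a2, hor2, hor, List.foldr, K1, K2, Int.cast_ofNat, Int.cast_neg, Int.cast_zero,
    Int.cast_one]
  field_simp
  ring

theorem ELE_ha3 {K : Type} [Field K] {N M : K} (h2 : (2 : K) ≠ 0) (h3 : (3 : K) ≠ 0) (h4 : (4 : K) ≠ 0)
    (h6 : (6 : K) ≠ 0) (h12 : (12 : K) ≠ 0) (h24 : (24 : K) ≠ 0)
    (hM : M ≠ 0) (hM1 : M + 1 ≠ 0) (hM2 : M + 2 ≠ 0) (hM3 : M + 3 ≠ 0) (hM4 : M + 4 ≠ 0)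
    (g : K)
    (hg : g = (N * M - 1) * (N * M - 2) * (N * M - 3) / (M * (M + 1) * (M + 2) * (M + 3))) :
    (M * (M + 1)) * (6 * g) - 3 * (N * M - 1) + 3 * (N * (N + 1))
      = 3 * ELE_a3 N M / ((M + 2) * (M + 3)) := by
  subst hg
  simp only [ELE_a3, hor2, hor, List.foldr, K1, K2, Int.cast_ofNat, Int.cast_neg, Int.cast_zero,
    Int.cast_one]
  field_simp
  ring

theorem ELE_hf1 {K : Type} [Field K] {N M : K} (h2 : (2 : K) ≠ 0) (h3 : (3 : K) ≠ 0) (h4 : (4 : K) ≠ 0)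
    (h6 : (6 : K) ≠ 0) (h12 : (12 : K) ≠ 0) (h24 : (24 : K) ≠ 0)
    (hM : M ≠ 0) (hM1 : M + 1 ≠ 0) (hM2 : M + 2 ≠ 0) (hM3 : M + 3 ≠ 0) (hM4 : M + 4 ≠ 0)
    (k1 k21 g k31 r k41 : K)
    (hk41 : k41 = r - (M - 1) * k1 * k31 - (M - 1) / 2 * k21 ^ 2
      - (M - 1) * (M - 2) / 2 * k1 ^ 2 * k21 - (M - 1) * (M - 2) * (M - 3) / 24 * k1 ^ 4)
    (hr : r = (N * M - 1) * (N * M - 2) * (N * M - 3) * (N * M - 4)
      / (M * (M + 1) * (M + 2) * (M + 3) * (M + 4)))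
    (hk31 : k31 = g - (M - 1) * k1 * k21 - (M - 1) * (M - 2) / 6 * k1 ^ 3)
    (hg : g = (N * M - 1) * (N * M - 2) * (N * M - 3) / (M * (M + 1) * (M + 2) * (M + 3)))
    (hk21 : k21 = (N * M - 1) * (N * M - 2) / (M * (M + 1) * (M + 2)) - (M - 1) / 2 * k1 ^ 2)
    (hk1 : k1 = (N * M - 1) / (M * (M + 1))) :
    10 * (M * (M + 1)) * k41 + (6 * (M * (M + 1)) - 4 * (N * M - 1)) * k31
      = ELE_f1 N M / (4 * M ^ 3 * (M + 1) ^ 3 * (M + 2) ^ 2 * (M + 3) * (M + 4)) := by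
  subst hk41 hr hk31 hg hk21 hk1
  simp only [ELE_f1, hor2, hor, List.foldr, K1, K2, Int.cast_ofNat, Int.cast_neg, Int.cast_zero,
    Int.cast_one]
  field_simp
  ring

theorem ELE_hf2 {K : Type} [Field K] {N M : K} (h2 : (2 : K) ≠ 0) (h3 : (3 : K) ≠ 0) (h4 : (4 : K) ≠ 0)
    (h6 : (6 : K) ≠ 0) (h12 : (12 : K) ≠ 0) (h24 : (24 : K) ≠ 0)
    (hM : M ≠ 0) (hM1 : M + 1 ≠ 0) (hM2 : M + 2 ≠ 0) (hM3 : M + 3 ≠ 0) (hM4 : M + 4 ≠ 0)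
    (k1 k22 k21 g k32 r k42 : K)
    (hk42 : k42 = -3 * r - (M - 1) * k1 * k32 - (M - 1) * k21 * k22
      - (M - 1) * (M - 2) / 2 * k1 ^ 2 * k22)
    (hr : r = (N * M - 1) * (N * M - 2) * (N * M - 3) * (N * M - 4)
      / (M * (M + 1) * (M + 2) * (M + 3) * (M + 4)))
    (hk32 : k32 = -2 * g - (M - 1) * k1 * k22)
    (hg : g = (N * M - 1) * (N * M - 2) * (N * M - 3) / (M * (M + 1) * (M + 2) * (M + 3)))
    (hk21 : k21 = (N * M - 1) * (N * M - 2) / (M * (M + 1) * (M + 2)) - (M - 1) / 2 * k1 ^ 2)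
    (hk22 : k22 = -((N * M - 1) * (N * M - 2) / (M * (M + 1) * (M + 2))))
    (hk1 : k1 = (N * M - 1) / (M * (M + 1))) :
    10 * (M * (M + 1)) * k42 + (6 * (M * (M + 1)) - 4 * (N * M - 1)) * k32
      + (3 * (M * (M + 1)) - 6 * (N * M - 1) + (N * (N + 1))) * k21
      = ELE_f2 N M / (2 * M ^ 2 * (M + 1) ^ 2 * (M + 2) ^ 2 * (M + 3) * (M + 4)) := by
  subst hk42 hr hk32 hg hk21 hk22 hk1
  simp only [ELE_f2, hor2, hor, List.foldr, K1, K2, Int.cast_ofNat, Int.cast_neg, Int.cast_zero,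
    Int.cast_one]
  field_simp
  ring

theorem ELE_hf3 {K : Type} [Field K] {N M : K} (h2 : (2 : K) ≠ 0) (h3 : (3 : K) ≠ 0) (h4 : (4 : K) ≠ 0)
    (h6 : (6 : K) ≠ 0) (h12 : (12 : K) ≠ 0) (h24 : (24 : K) ≠ 0)
    (hM : M ≠ 0) (hM1 : M + 1 ≠ 0) (hM2 : M + 2 ≠ 0) (hM3 : M + 3 ≠ 0) (hM4 : M + 4 ≠ 0)
    (k22 r k43 : K)
    (hk43 : k43 = r - (M - 1) / 2 * k22 ^ 2)
    (hr : r = (N * M - 1) * (N * M - 2) * (N * M - 3) * (N * M - 4)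
      / (M * (M + 1) * (M + 2) * (M + 3) * (M + 4)))
    (hk22 : k22 = -((N * M - 1) * (N * M - 2) / (M * (M + 1) * (M + 2)))) :
    10 * (M * (M + 1)) * k43 + (3 * (M * (M + 1)) - 6 * (N * M - 1) + (N * (N + 1))) * k22
      = ELE_f3 N M / (M * (M + 1) * (M + 2) ^ 2 * (M + 3) * (M + 4)) := by
  subst hk43 hr hk22
  simp only [ELE_f3, hor2, hor, List.foldr, K1, K2, Int.cast_ofNat, Int.cast_neg, Int.cast_zero,
    Int.cast_one]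
  field_simp
  ring

theorem ELE_hf4 {K : Type} [Field K] {N M : K} (h2 : (2 : K) ≠ 0) (h3 : (3 : K) ≠ 0) (h4 : (4 : K) ≠ 0)
    (h6 : (6 : K) ≠ 0) (h12 : (12 : K) ≠ 0) (h24 : (24 : K) ≠ 0)
    (hM : M ≠ 0) (hM1 : M + 1 ≠ 0) (hM2 : M + 2 ≠ 0) (hM3 : M + 3 ≠ 0) (hM4 : M + 4 ≠ 0)
    (k1 g r k44 : K)
    (hk44 : k44 = 2 * r - (M - 1) * k1 * g)
    (hr : r = (N * M - 1) * (N * M - 2) * (N * M - 3) * (N * M - 4)
      / (M * (M + 1) * (M + 2) * (M + 3) * (M + 4)))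
    (hg : g = (N * M - 1) * (N * M - 2) * (N * M - 3) / (M * (M + 1) * (M + 2) * (M + 3)))
    (hk1 : k1 = (N * M - 1) / (M * (M + 1))) :
    10 * (M * (M + 1)) * k44 + (6 * (M * (M + 1)) - 4 * (N * M - 1)) * g
      + ((M * (M + 1)) - 6 * (N * M - 1) + 3 * (N * (N + 1))) * k1
      = ELE_f4 N M / (M * (M + 1) * (M + 2) * (M + 3) * (M + 4)) := by
  subst hk44 hr hg hk1
  simp only [ELE_f4, hor2, hor, List.foldr, K1, K2, Int.cast_ofNat, Int.cast_neg, Int.cast_zero,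
    Int.cast_one]
  field_simp
  ring

theorem ELE_hf5 {K : Type} [Field K] {N M : K} (h2 : (2 : K) ≠ 0) (h3 : (3 : K) ≠ 0) (h4 : (4 : K) ≠ 0)
    (h6 : (6 : K) ≠ 0) (h12 : (12 : K) ≠ 0) (h24 : (24 : K) ≠ 0)
    (hM : M ≠ 0) (hM1 : M + 1 ≠ 0) (hM2 : M + 2 ≠ 0) (hM3 : M + 3 ≠ 0) (hM4 : M + 4 ≠ 0)
    (r k45 : K)
    (hk45 : k45 = -r)
    (hr : r = (N * M - 1) * (N * M - 2) * (N * M - 3) * (N * M - 4)
      / (M * (M + 1) * (M + 2) * (M + 3) * (M + 4))) :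
    10 * (M * (M + 1)) * k45 - 4 * (N * M - 1) + 6 * (N * (N + 1))
      = 2 * ELE_f5 N M / ((M + 2) * (M + 3) * (M + 4)) := by
  subst hk45 hr
  simp only [ELE_f5, hor2, hor, List.foldr, K1, K2, Int.cast_ofNat, Int.cast_neg, Int.cast_zero,
    Int.cast_one]
  field_simp
  ring

theorem ELE_hg1 {K : Type} [Field K] {N M : K} (h2 : (2 : K) ≠ 0) (h3 : (3 : K) ≠ 0) (h4 : (4 : K) ≠ 0)
    (h6 : (6 : K) ≠ 0) (h12 : (12 : K) ≠ 0) (h24 : (24 : K) ≠ 0)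
    (hM : M ≠ 0) (hM1 : M + 1 ≠ 0) (hM2 : M + 2 ≠ 0) (hM3 : M + 3 ≠ 0) (hM4 : M + 4 ≠ 0)
    (k1 k21 g k31 r k41 : K)
    (hk41 : k41 = r - (M - 1) * k1 * k31 - (M - 1) / 2 * k21 ^ 2
      - (M - 1) * (M - 2) / 2 * k1 ^ 2 * k21 - (M - 1) * (M - 2) * (M - 3) / 24 * k1 ^ 4)
    (hr : r = (N * M - 1) * (N * M - 2) * (N * M - 3) * (N * M - 4)
      / (M * (M + 1) * (M + 2) * (M + 3) * (M + 4)))
    (hk31 : k31 = g - (M - 1) * k1 * k21 - (M - 1) * (M - 2) / 6 * k1 ^ 3)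
    (hg : g = (N * M - 1) * (N * M - 2) * (N * M - 3) / (M * (M + 1) * (M + 2) * (M + 3)))
    (hk21 : k21 = (N * M - 1) * (N * M - 2) / (M * (M + 1) * (M + 2)) - (M - 1) / 2 * k1 ^ 2)
    (hk1 : k1 = (N * M - 1) / (M * (M + 1))) :
    10 * K1 N M * k41 + (4 * K1 N M - 2 * K2 N M) * k31
      = ELE_g1 N M / (12 * M ^ 3 * (M + 1) ^ 3 * (M + 2) ^ 2 * (M + 3) * (M + 4)) := by
  subst hk41 hr hk31 hg hk21 hk1
  simp only [ELE_g1, hor2, hor, List.foldr, K1, K2, Int.cast_ofNat, Int.cast_neg, Int.cast_zero,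
    Int.cast_one]
  field_simp
  ring

theorem ELE_hg2 {K : Type} [Field K] {N M : K} (h2 : (2 : K) ≠ 0) (h3 : (3 : K) ≠ 0) (h4 : (4 : K) ≠ 0)
    (h6 : (6 : K) ≠ 0) (h12 : (12 : K) ≠ 0) (h24 : (24 : K) ≠ 0)
    (hM : M ≠ 0) (hM1 : M + 1 ≠ 0) (hM2 : M + 2 ≠ 0) (hM3 : M + 3 ≠ 0) (hM4 : M + 4 ≠ 0)
    (k1 k22 k21 g k32 r k42 : K)
    (hk42 : k42 = -3 * r - (M - 1) * k1 * k32 - (M - 1) * k21 * k22
      - (M - 1) * (M - 2) / 2 * k1 ^ 2 * k22)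
    (hr : r = (N * M - 1) * (N * M - 2) * (N * M - 3) * (N * M - 4)
      / (M * (M + 1) * (M + 2) * (M + 3) * (M + 4)))
    (hk32 : k32 = -2 * g - (M - 1) * k1 * k22)
    (hg : g = (N * M - 1) * (N * M - 2) * (N * M - 3) / (M * (M + 1) * (M + 2) * (M + 3)))
    (hk21 : k21 = (N * M - 1) * (N * M - 2) / (M * (M + 1) * (M + 2)) - (M - 1) / 2 * k1 ^ 2)
    (hk22 : k22 = -((N * M - 1) * (N * M - 2) / (M * (M + 1) * (M + 2))))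
    (hk1 : k1 = (N * M - 1) / (M * (M + 1))) :
    10 * K1 N M * k42 + (4 * K1 N M - 2 * K2 N M) * k32
      + (K1 N M - 2 * K2 N M + K2 M N) * k21
      = ELE_g2 N M / (2 * M ^ 2 * (M + 1) ^ 2 * (M + 2) ^ 2 * (M + 3) * (M + 4)) := by
  subst hk42 hr hk32 hg hk21 hk22 hk1
  simp only [ELE_g2, hor2, hor, List.foldr, K1, K2, Int.cast_ofNat, Int.cast_neg, Int.cast_zero,
    Int.cast_one]
  field_simp
  ring

theorem ELE_hg3 {K : Type} [Field K] {N M : K} (h2 : (2 : K) ≠ 0) (h3 : (3 : K) ≠ 0) (h4 : (4 : K) ≠ 0)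
    (h6 : (6 : K) ≠ 0) (h12 : (12 : K) ≠ 0) (h24 : (24 : K) ≠ 0)
    (hM : M ≠ 0) (hM1 : M + 1 ≠ 0) (hM2 : M + 2 ≠ 0) (hM3 : M + 3 ≠ 0) (hM4 : M + 4 ≠ 0)
    (k22 r k43 : K)
    (hk43 : k43 = r - (M - 1) / 2 * k22 ^ 2)
    (hr : r = (N * M - 1) * (N * M - 2) * (N * M - 3) * (N * M - 4)
      / (M * (M + 1) * (M + 2) * (M + 3) * (M + 4)))
    (hk22 : k22 = -((N * M - 1) * (N * M - 2) / (M * (M + 1) * (M + 2)))) :
    10 * K1 N M * k43 + (K1 N M - 2 * K2 N M + K2 M N) * k22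
      = ELE_g3 N M / (M * (M + 1) * (M + 2) ^ 2 * (M + 3) * (M + 4)) := by
  subst hk43 hr hk22
  simp only [ELE_g3, hor2, hor, List.foldr, K1, K2, Int.cast_ofNat, Int.cast_neg, Int.cast_zero,
    Int.cast_one]
  field_simp
  ring

theorem ELE_hg4 {K : Type} [Field K] {N M : K} (h2 : (2 : K) ≠ 0) (h3 : (3 : K) ≠ 0) (h4 : (4 : K) ≠ 0)
    (h6 : (6 : K) ≠ 0) (h12 : (12 : K) ≠ 0) (h24 : (24 : K) ≠ 0)
    (hM : M ≠ 0) (hM1 : M + 1 ≠ 0) (hM2 : M + 2 ≠ 0) (hM3 : M + 3 ≠ 0) (hM4 : M + 4 ≠ 0)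
    (k1 g r k44 : K)
    (hk44 : k44 = 2 * r - (M - 1) * k1 * g)
    (hr : r = (N * M - 1) * (N * M - 2) * (N * M - 3) * (N * M - 4)
      / (M * (M + 1) * (M + 2) * (M + 3) * (M + 4)))
    (hg : g = (N * M - 1) * (N * M - 2) * (N * M - 3) / (M * (M + 1) * (M + 2) * (M + 3)))
    (hk1 : k1 = (N * M - 1) / (M * (M + 1))) :
    10 * K1 N M * k44 + (4 * K1 N M - 2 * K2 N M) * g
      + (2 * K2 M N - K2 N M - K1 M N) * k1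
      = ELE_g4 N M / (M * (M + 1) * (M + 2) * (M + 3) * (M + 4)) := by
  subst hk44 hr hg hk1
  simp only [ELE_g4, hor2, hor, List.foldr, K1, K2, Int.cast_ofNat, Int.cast_neg, Int.cast_zero,
    Int.cast_one]
  field_simp
  ring

theorem ELE_hg5 {K : Type} [Field K] {N M : K} (h2 : (2 : K) ≠ 0) (h3 : (3 : K) ≠ 0) (h4 : (4 : K) ≠ 0)
    (h6 : (6 : K) ≠ 0) (h12 : (12 : K) ≠ 0) (h24 : (24 : K) ≠ 0)
    (hM : M ≠ 0) (hM1 : M + 1 ≠ 0) (hM2 : M + 2 ≠ 0) (hM3 : M + 3 ≠ 0) (hM4 : M + 4 ≠ 0)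
    (r k45 : K)
    (hk45 : k45 = -r)
    (hr : r = (N * M - 1) * (N * M - 2) * (N * M - 3) * (N * M - 4)
      / (M * (M + 1) * (M + 2) * (M + 3) * (M + 4))) :
    10 * K1 N M * k45 + 2 * K2 M N - 4 * K1 M N
      = 2 * ELE_g5 N M / ((M + 2) * (M + 3) * (M + 4)) := by
  subst hk45 hr
  simp only [ELE_g5, hor2, hor, List.foldr, K1, K2, Int.cast_ofNat, Int.cast_neg, Int.cast_zero,
    Int.cast_one]
  field_simp
  ring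

theorem ELE_det {K : Type} [Field K] (N M : K) :
    ELE_a3 N M * ((3 * ELE_g5 N M * ELE_f1 N M - ELE_f5 N M * ELE_g1 N M) * ELE_e2 N M ^ 2
        - 3 * (ELE_g5 N M * ELE_f2 N M - ELE_f5 N M * ELE_g2 N M) * ELE_e1 N M * ELE_e2 N M
        + 3 * (ELE_g5 N M * ELE_f3 N M - ELE_f5 N M * ELE_g3 N M) * ELE_e1 N M ^ 2)
      - 2 * (M + 2) * (ELE_g5 N M * ELE_f4 N M - ELE_f5 N M * ELE_g4 N M) * ELE_e2 N M
        * (ELE_a1 N M * ELE_e2 N M - ELE_a2 N M * ELE_e1 N M)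
      = -8 * ((N * M - 1) * (M - 1) * (N + 1) * M5 N M) * ((M + 2) ^ 2 * (M + 3) * (M + 4)) := by
  simp only [ELE_a1, ELE_a2, ELE_a3, ELE_e1, ELE_e2, ELE_f1, ELE_f2, ELE_f3, ELE_f4, ELE_f5,
    ELE_g1, ELE_g2, ELE_g3, ELE_g4, ELE_g5, M5, hor2, hor, List.foldr, Int.cast_ofNat,
    Int.cast_neg, Int.cast_zero, Int.cast_one]
  ring

theorem ELE_u4 {K : Type} [Field K] {N M u1 u2 u3 u4 v1 v2 v3 v4 : K} (h2 : (2 : K) ≠ 0)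
    (h24 : (24 : K) ≠ 0) (hM : M ≠ 0)
    (hM1 : M + 1 ≠ 0) (hM2 : M + 2 ≠ 0) (hM3 : M + 3 ≠ 0) (hM4 : M + 4 ≠ 0)
    (h : R4 N M u1 u2 u3 u4 v1 v2 v3 v4) :
    u4 = (N * M - 1) * (N * M - 2) * (N * M - 3) * (N * M - 4)
        / (M * (M + 1) * (M + 2) * (M + 3) * (M + 4))
        * (v1 ^ 4 - 3 * v1 ^ 2 * v2 + v2 ^ 2 + 2 * v1 * v3 - v4)
      - (M - 1) * (u1 * u3) - (M - 1) / 2 * u2 ^ 2 - (M - 1) * (M - 2) / 2 * (u1 ^ 2 * u2)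
      - (M - 1) * (M - 2) * (M - 3) / 24 * u1 ^ 4 := by
  unfold R4 at h
  field_simp
  linear_combination 2 * h

/-- generic elimination -/
theorem ELE_comb {K : Type} [Field K] (D E1 E2 A1 A2 A3 F1 F2 F3 F4 F5 G1 G2 G3 G4 G5 m
    v1 v2 v3 v4 : K)
    (he : E1 * v1 ^ 2 + 2 * D * E2 * v2 = 0)
    (ha : A1 * v1 ^ 3 + 2 * D * A2 * (v1 * v2) + 6 * D ^ 2 * A3 * v3 = 0)
    (hf : F1 * v1 ^ 4 + 2 * D * F2 * (v1 ^ 2 * v2) + 4 * D ^ 2 * F3 * v2 ^ 2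
      + 4 * D ^ 2 * m * F4 * (v1 * v3) + 8 * D ^ 3 * m * F5 * v4 = 0)
    (hg : G1 * v1 ^ 4 + 6 * D * G2 * (v1 ^ 2 * v2) + 12 * D ^ 2 * G3 * v2 ^ 2
      + 12 * D ^ 2 * m * G4 * (v1 * v3) + 24 * D ^ 3 * m * G5 * v4 = 0) :
    (A3 * ((3 * G5 * F1 - F5 * G1) * E2 ^ 2 - 3 * (G5 * F2 - F5 * G2) * E1 * E2
        + 3 * (G5 * F3 - F5 * G3) * E1 ^ 2)
      - 2 * m * (G5 * F4 - F5 * G4) * E2 * (A1 * E2 - A2 * E1)) * v1 ^ 4 = 0 := by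
  linear_combination (3 * G5 * A3 * E2 ^ 2) * hf - (F5 * A3 * E2 ^ 2) * hg
    - (2 * m * (G5 * F4 - F5 * G4) * E2 ^ 2 * v1) * ha
    + ((-3 * A3 * E2 * (G5 * F2 - F5 * G2) + 2 * m * (G5 * F4 - F5 * G4) * E2 * A2
      + 3 * A3 * (G5 * F3 - F5 * G3) * E1) * v1 ^ 2
      - 6 * D * A3 * E2 * (G5 * F3 - F5 * G3) * v2) * he

theorem ELE : ELE_stmt := by
  intro K _ N M u1 u2 u3 u4 v1 v2 v3 v4 h2 h3 hM hM1 hM2 hM3 hM4 r1 r2 r3 r4 X1 X2 X3 X4 X5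
  have h4 : (4 : K) ≠ 0 := by
    have : (4 : K) = 2 * 2 := by norm_num
    rw [this]; exact mul_ne_zero h2 h2
  have h6 : (6 : K) ≠ 0 := by
    have : (6 : K) = 2 * 3 := by norm_num
    rw [this]; exact mul_ne_zero h2 h3
  have h8 : (8 : K) ≠ 0 := by
    have : (8 : K) = 2 * 4 := by norm_num
    rw [this]; exact mul_ne_zero h2 h4
  have h12 : (12 : K) ≠ 0 := by
    have : (12 : K) = 2 * 6 := by norm_num
    rw [this]; exact mul_ne_zero h2 h6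
  have h24 : (24 : K) ≠ 0 := by
    have : (24 : K) = 2 * 12 := by norm_num
    rw [this]; exact mul_ne_zero h2 h12
  have hu1 := EL_u1 hM hM1 r1
  have hu2 := EL_u2 h2 hM hM1 hM2 r2
  have hu3 := EL_u3 h2 h3 hM hM1 hM2 hM3 r3
  have hu4 := ELE_u4 h2 h24 hM hM1 hM2 hM3 hM4 r4
  obtain ⟨k1, hk1⟩ : ∃ k : K, k = (N * M - 1) / (M * (M + 1)) :=
    ⟨_, rfl⟩
  obtain ⟨k22, hk22⟩ : ∃ k : K, k = -((N * M - 1) * (N * M - 2) / (M * (M + 1) * (M + 2))) :=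
    ⟨_, rfl⟩
  obtain ⟨k21, hk21⟩ : ∃ k : K, k = (N * M - 1) * (N * M - 2) / (M * (M + 1) * (M + 2)) - (M - 1) / 2 * k1 ^ 2 :=
    ⟨_, rfl⟩
  obtain ⟨g, hg⟩ : ∃ k : K, k = (N * M - 1) * (N * M - 2) * (N * M - 3) / (M * (M + 1) * (M + 2) * (M + 3)) :=
    ⟨_, rfl⟩
  obtain ⟨k32, hk32⟩ : ∃ k : K, k = -2 * g - (M - 1) * k1 * k22 :=
    ⟨_, rfl⟩
  obtain ⟨k31, hk31⟩ : ∃ k : K, k = g - (M - 1) * k1 * k21 - (M - 1) * (M - 2) / 6 * k1 ^ 3 :=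
    ⟨_, rfl⟩
  obtain ⟨r, hr⟩ : ∃ k : K, k = (N * M - 1) * (N * M - 2) * (N * M - 3) * (N * M - 4)
      / (M * (M + 1) * (M + 2) * (M + 3) * (M + 4)) :=
    ⟨_, rfl⟩
  obtain ⟨k41, hk41⟩ : ∃ k : K, k = r - (M - 1) * k1 * k31 - (M - 1) / 2 * k21 ^ 2
      - (M - 1) * (M - 2) / 2 * k1 ^ 2 * k21 - (M - 1) * (M - 2) * (M - 3) / 24 * k1 ^ 4 :=
    ⟨_, rfl⟩
  obtain ⟨k42, hk42⟩ : ∃ k : K, k = -3 * r - (M - 1) * k1 * k32 - (M - 1) * k21 * k22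
      - (M - 1) * (M - 2) / 2 * k1 ^ 2 * k22 :=
    ⟨_, rfl⟩
  obtain ⟨k43, hk43⟩ : ∃ k : K, k = r - (M - 1) / 2 * k22 ^ 2 :=
    ⟨_, rfl⟩
  obtain ⟨k44, hk44⟩ : ∃ k : K, k = 2 * r - (M - 1) * k1 * g :=
    ⟨_, rfl⟩
  obtain ⟨k45, hk45⟩ : ∃ k : K, k = -r :=
    ⟨_, rfl⟩
  obtain ⟨e1, he1⟩ : ∃ k : K, k = 3 * (M * (M + 1)) * k21 + ((M * (M + 1)) - 2 * (N * M - 1)) * k1 := ⟨_, rfl⟩
  obtain ⟨e2, he2⟩ : ∃ k : K, k = 3 * (M * (M + 1)) * k22 + (N * (N + 1)) - 2 * (N * M - 1) := ⟨_, rfl⟩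
  obtain ⟨a1, ha1⟩ : ∃ k : K, k = (M * (M + 1)) * (6 * k31 + 3 * k21) - (N * M - 1) * (3 * k21) := ⟨_, rfl⟩
  obtain ⟨a2, ha2⟩ : ∃ k : K, k = (M * (M + 1)) * (6 * k32 + 3 * k22 + k1) - (N * M - 1) * (3 * k22 + 4 * k1) + (N * (N + 1)) * k1 := ⟨_, rfl⟩
  obtain ⟨a3, ha3⟩ : ∃ k : K, k = (M * (M + 1)) * (6 * g) - 3 * (N * M - 1) + 3 * (N * (N + 1)) := ⟨_, rfl⟩
  obtain ⟨f1, hf1⟩ : ∃ k : K, k = 10 * (M * (M + 1)) * k41 + (6 * (M * (M + 1)) - 4 * (N * M - 1)) * k31 := ⟨_, rfl⟩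
  obtain ⟨f2, hf2⟩ : ∃ k : K, k = 10 * (M * (M + 1)) * k42 + (6 * (M * (M + 1)) - 4 * (N * M - 1)) * k32
      + (3 * (M * (M + 1)) - 6 * (N * M - 1) + (N * (N + 1))) * k21 := ⟨_, rfl⟩
  obtain ⟨f3, hf3⟩ : ∃ k : K, k = 10 * (M * (M + 1)) * k43 + (3 * (M * (M + 1)) - 6 * (N * M - 1) + (N * (N + 1))) * k22 := ⟨_, rfl⟩
  obtain ⟨f4, hf4⟩ : ∃ k : K, k = 10 * (M * (M + 1)) * k44 + (6 * (M * (M + 1)) - 4 * (N * M - 1)) * g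
      + ((M * (M + 1)) - 6 * (N * M - 1) + 3 * (N * (N + 1))) * k1 := ⟨_, rfl⟩
  obtain ⟨f5, hf5⟩ : ∃ k : K, k = 10 * (M * (M + 1)) * k45 - 4 * (N * M - 1) + 6 * (N * (N + 1)) := ⟨_, rfl⟩
  obtain ⟨g1, hg1⟩ : ∃ k : K, k = 10 * K1 N M * k41 + (4 * K1 N M - 2 * K2 N M) * k31 := ⟨_, rfl⟩
  obtain ⟨g2, hg2⟩ : ∃ k : K, k = 10 * K1 N M * k42 + (4 * K1 N M - 2 * K2 N M) * k32
      + (K1 N M - 2 * K2 N M + K2 M N) * k21 := ⟨_, rfl⟩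
  obtain ⟨g3, hg3⟩ : ∃ k : K, k = 10 * K1 N M * k43 + (K1 N M - 2 * K2 N M + K2 M N) * k22 := ⟨_, rfl⟩
  obtain ⟨g4, hg4⟩ : ∃ k : K, k = 10 * K1 N M * k44 + (4 * K1 N M - 2 * K2 N M) * g
      + (2 * K2 M N - K2 N M - K1 M N) * k1 := ⟨_, rfl⟩
  obtain ⟨g5, hg5⟩ : ∃ k : K, k = 10 * K1 N M * k45 + 2 * K2 M N - 4 * K1 M N := ⟨_, rfl⟩
  have ce1 : e1 = ELE_e1 N M / (2 * M * (M + 1) * (M + 2)) := by
    rw [he1]
    exact ELE_he1 h2 h3 h4 h6 h12 h24 hM hM1 hM2 hM3 hM4 k1 k21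
      hk21 hk1
  have ce2 : e2 = ELE_e2 N M / (M + 2) := by
    rw [he2]
    exact ELE_he2 h2 h3 h4 h6 h12 h24 hM hM1 hM2 hM3 hM4 k22
      hk22
  have ca1 : a1 = ELE_a1 N M / (2 * M ^ 2 * (M + 1) ^ 2 * (M + 2) * (M + 3)) := by
    rw [ha1]
    exact ELE_ha1 h2 h3 h4 h6 h12 h24 hM hM1 hM2 hM3 hM4 k1 k21 g k31
      hk31 hg hk21 hk1
  have ca2 : a2 = ELE_a2 N M / (M * (M + 1) * (M + 2) * (M + 3)) := by
    rw [ha2]
    exact ELE_ha2 h2 h3 h4 h6 h12 h24 hM hM1 hM2 hM3 hM4 k1 k22 g k32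
      hk32 hg hk22 hk1
  have ca3 : a3 = 3 * ELE_a3 N M / ((M + 2) * (M + 3)) := by
    rw [ha3]
    exact ELE_ha3 h2 h3 h4 h6 h12 h24 hM hM1 hM2 hM3 hM4 g
      hg
  have cf1 : f1 = ELE_f1 N M / (4 * M ^ 3 * (M + 1) ^ 3 * (M + 2) ^ 2 * (M + 3) * (M + 4)) := by
    rw [hf1]
    exact ELE_hf1 h2 h3 h4 h6 h12 h24 hM hM1 hM2 hM3 hM4 k1 k21 g k31 r k41
      hk41 hr hk31 hg hk21 hk1
  have cf2 : f2 = ELE_f2 N M / (2 * M ^ 2 * (M + 1) ^ 2 * (M + 2) ^ 2 * (M + 3) * (M + 4)) := by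
    rw [hf2]
    exact ELE_hf2 h2 h3 h4 h6 h12 h24 hM hM1 hM2 hM3 hM4 k1 k22 k21 g k32 r k42
      hk42 hr hk32 hg hk21 hk22 hk1
  have cf3 : f3 = ELE_f3 N M / (M * (M + 1) * (M + 2) ^ 2 * (M + 3) * (M + 4)) := by
    rw [hf3]
    exact ELE_hf3 h2 h3 h4 h6 h12 h24 hM hM1 hM2 hM3 hM4 k22 r k43
      hk43 hr hk22
  have cf4 : f4 = ELE_f4 N M / (M * (M + 1) * (M + 2) * (M + 3) * (M + 4)) := by
    rw [hf4]
    exact ELE_hf4 h2 h3 h4 h6 h12 h24 hM hM1 hM2 hM3 hM4 k1 g r k44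
      hk44 hr hg hk1
  have cf5 : f5 = 2 * ELE_f5 N M / ((M + 2) * (M + 3) * (M + 4)) := by
    rw [hf5]
    exact ELE_hf5 h2 h3 h4 h6 h12 h24 hM hM1 hM2 hM3 hM4 r k45
      hk45 hr
  have cg1 : g1 = ELE_g1 N M / (12 * M ^ 3 * (M + 1) ^ 3 * (M + 2) ^ 2 * (M + 3) * (M + 4)) := by
    rw [hg1]
    exact ELE_hg1 h2 h3 h4 h6 h12 h24 hM hM1 hM2 hM3 hM4 k1 k21 g k31 r k41
      hk41 hr hk31 hg hk21 hk1
  have cg2 : g2 = ELE_g2 N M / (2 * M ^ 2 * (M + 1) ^ 2 * (M + 2) ^ 2 * (M + 3) * (M + 4)) := by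
    rw [hg2]
    exact ELE_hg2 h2 h3 h4 h6 h12 h24 hM hM1 hM2 hM3 hM4 k1 k22 k21 g k32 r k42
      hk42 hr hk32 hg hk21 hk22 hk1
  have cg3 : g3 = ELE_g3 N M / (M * (M + 1) * (M + 2) ^ 2 * (M + 3) * (M + 4)) := by
    rw [hg3]
    exact ELE_hg3 h2 h3 h4 h6 h12 h24 hM hM1 hM2 hM3 hM4 k22 r k43
      hk43 hr hk22
  have cg4 : g4 = ELE_g4 N M / (M * (M + 1) * (M + 2) * (M + 3) * (M + 4)) := by
    rw [hg4]
    exact ELE_hg4 h2 h3 h4 h6 h12 h24 hM hM1 hM2 hM3 hM4 k1 g r k44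
      hk44 hr hg hk1
  have cg5 : g5 = 2 * ELE_g5 N M / ((M + 2) * (M + 3) * (M + 4)) := by
    rw [hg5]
    exact ELE_hg5 h2 h3 h4 h6 h12 h24 hM hM1 hM2 hM3 hM4 r k45
      hk45 hr
  have se1 : 2 * M * (M + 1) * (M + 2) * e1 = ELE_e1 N M := by
    rw [ce1]
    field_simp
  have se2 : (M + 2) * e2 = ELE_e2 N M := by
    rw [ce2]
    field_simp
  have sa1 : 2 * M ^ 2 * (M + 1) ^ 2 * (M + 2) * (M + 3) * a1 = ELE_a1 N M := by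
    rw [ca1]
    field_simp
  have sa2 : M * (M + 1) * (M + 2) * (M + 3) * a2 = ELE_a2 N M := by
    rw [ca2]
    field_simp
  have sa3 : (M + 2) * (M + 3) * a3 = 3 * ELE_a3 N M := by
    rw [ca3]
    field_simp
  have sf1 : 4 * M ^ 3 * (M + 1) ^ 3 * (M + 2) ^ 2 * (M + 3) * (M + 4) * f1 = ELE_f1 N M := by
    rw [cf1]
    field_simp
  have sf2 : 2 * M ^ 2 * (M + 1) ^ 2 * (M + 2) ^ 2 * (M + 3) * (M + 4) * f2 = ELE_f2 N M := by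
    rw [cf2]
    field_simp
  have sf3 : M * (M + 1) * (M + 2) ^ 2 * (M + 3) * (M + 4) * f3 = ELE_f3 N M := by
    rw [cf3]
    field_simp
  have sf4 : M * (M + 1) * (M + 2) * (M + 3) * (M + 4) * f4 = ELE_f4 N M := by
    rw [cf4]
    field_simp
  have sf5 : (M + 2) * (M + 3) * (M + 4) * f5 = 2 * ELE_f5 N M := by
    rw [cf5]
    field_simp
  have sg1 : 12 * M ^ 3 * (M + 1) ^ 3 * (M + 2) ^ 2 * (M + 3) * (M + 4) * g1 = ELE_g1 N M := by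
    rw [cg1]
    field_simp
  have sg2 : 2 * M ^ 2 * (M + 1) ^ 2 * (M + 2) ^ 2 * (M + 3) * (M + 4) * g2 = ELE_g2 N M := by
    rw [cg2]
    field_simp
  have sg3 : M * (M + 1) * (M + 2) ^ 2 * (M + 3) * (M + 4) * g3 = ELE_g3 N M := by
    rw [cg3]
    field_simp
  have sg4 : M * (M + 1) * (M + 2) * (M + 3) * (M + 4) * g4 = ELE_g4 N M := by
    rw [cg4]
    field_simp
  have sg5 : (M + 2) * (M + 3) * (M + 4) * g5 = 2 * ELE_g5 N M := by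
    rw [cg5]
    field_simp
  have gu1 : u1 = k1 * v1 := by rw [hu1, hk1]
  have gu2 : u2 = k21 * v1 ^ 2 + k22 * v2 := by
    rw [hu2, gu1, hk21, hk22]; ring
  have gu3 : u3 = k31 * v1 ^ 3 + k32 * (v1 * v2) + g * v3 := by
    rw [hu3, ← hg, gu2, gu1, hk31, hk32]; ring
  have gu4 : u4 = k41 * v1 ^ 4 + k42 * (v1 ^ 2 * v2) + k43 * v2 ^ 2 + k44 * (v1 * v3)
      + k45 * v4 := by
    rw [hu4, ← hr, gu3, gu2, gu1, hk41, hk42, hk43, hk44, hk45]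
    field_simp
    ring
  have F1 : e1 * v1 ^ 2 + e2 * v2 = 0 := by
    rw [gu1, gu2] at X1
    rw [he1, he2]
    linear_combination X1
  have F2 : a1 * v1 ^ 3 + a2 * (v1 * v2) + a3 * v3 = 0 := by
    rw [gu1, gu2, gu3] at X2
    rw [ha1, ha2, ha3]
    linear_combination X2
  have F4 : f1 * v1 ^ 4 + f2 * (v1 ^ 2 * v2) + f3 * v2 ^ 2 + f4 * (v1 * v3) + f5 * v4 = 0 := by
    rw [gu1, gu2, gu3, gu4] at X4
    rw [hf1, hf2, hf3, hf4, hf5]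
    linear_combination X4
  have F5 : g1 * v1 ^ 4 + g2 * (v1 ^ 2 * v2) + g3 * v2 ^ 2 + g4 * (v1 * v3) + g5 * v4 = 0 := by
    rw [gu1, gu2, gu3, gu4] at X5
    rw [hg1, hg2, hg3, hg4, hg5]
    linear_combination X5
  have Q1 : ELE_e1 N M * v1 ^ 2 + 2 * (M * (M + 1)) * ELE_e2 N M * v2 = 0 := by
    have h : 2 * M * (M + 1) * (M + 2) * (e1 * v1 ^ 2 + e2 * v2) = 0 := by rw [F1, mul_zero]
    linear_combination h - v1 ^ 2 * se1 - 2 * M * (M + 1) * v2 * se2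
  have Q2 : ELE_a1 N M * v1 ^ 3 + 2 * (M * (M + 1)) * ELE_a2 N M * (v1 * v2)
      + 6 * (M * (M + 1)) ^ 2 * ELE_a3 N M * v3 = 0 := by
    have h : 2 * M ^ 2 * (M + 1) ^ 2 * (M + 2) * (M + 3)
        * (a1 * v1 ^ 3 + a2 * (v1 * v2) + a3 * v3) = 0 := by rw [F2, mul_zero]
    linear_combination h - v1 ^ 3 * sa1 - 2 * M * (M + 1) * (v1 * v2) * sa2
      - 2 * M ^ 2 * (M + 1) ^ 2 * v3 * sa3
  have Q4 : ELE_f1 N M * v1 ^ 4 + 2 * (M * (M + 1)) * ELE_f2 N M * (v1 ^ 2 * v2)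
      + 4 * (M * (M + 1)) ^ 2 * ELE_f3 N M * v2 ^ 2
      + 4 * (M * (M + 1)) ^ 2 * (M + 2) * ELE_f4 N M * (v1 * v3)
      + 8 * (M * (M + 1)) ^ 3 * (M + 2) * ELE_f5 N M * v4 = 0 := by
    have h : 4 * M ^ 3 * (M + 1) ^ 3 * (M + 2) ^ 2 * (M + 3) * (M + 4)
        * (f1 * v1 ^ 4 + f2 * (v1 ^ 2 * v2) + f3 * v2 ^ 2 + f4 * (v1 * v3) + f5 * v4) = 0 := by
      rw [F4, mul_zero]
    linear_combination h - v1 ^ 4 * sf1 - 2 * M * (M + 1) * (v1 ^ 2 * v2) * sf2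
      - 4 * M ^ 2 * (M + 1) ^ 2 * v2 ^ 2 * sf3 - 4 * M ^ 2 * (M + 1) ^ 2 * (M + 2) * (v1 * v3) * sf4
      - 4 * M ^ 3 * (M + 1) ^ 3 * (M + 2) * v4 * sf5
  have Q5 : ELE_g1 N M * v1 ^ 4 + 6 * (M * (M + 1)) * ELE_g2 N M * (v1 ^ 2 * v2)
      + 12 * (M * (M + 1)) ^ 2 * ELE_g3 N M * v2 ^ 2
      + 12 * (M * (M + 1)) ^ 2 * (M + 2) * ELE_g4 N M * (v1 * v3)
      + 24 * (M * (M + 1)) ^ 3 * (M + 2) * ELE_g5 N M * v4 = 0 := by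
    have h : 12 * M ^ 3 * (M + 1) ^ 3 * (M + 2) ^ 2 * (M + 3) * (M + 4)
        * (g1 * v1 ^ 4 + g2 * (v1 ^ 2 * v2) + g3 * v2 ^ 2 + g4 * (v1 * v3) + g5 * v4) = 0 := by
      rw [F5, mul_zero]
    linear_combination h - v1 ^ 4 * sg1 - 6 * M * (M + 1) * (v1 ^ 2 * v2) * sg2
      - 12 * M ^ 2 * (M + 1) ^ 2 * v2 ^ 2 * sg3
      - 12 * M ^ 2 * (M + 1) ^ 2 * (M + 2) * (v1 * v3) * sg4
      - 12 * M ^ 3 * (M + 1) ^ 3 * (M + 2) * v4 * sg5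
  refine ⟨?_, ?_⟩
  · obtain ⟨b1, hb1⟩ : ∃ k : K, k = K1 N M * (12 * k31 + 3 * k21) - K2 N M * (3 * k21) :=
      ⟨_, rfl⟩
    obtain ⟨b2, hb2⟩ : ∃ k : K, k = K1 N M * (12 * k32 + 3 * k22) - K2 N M * (3 * k22 + 2 * k1)
      + K2 M N * (2 * k1) := ⟨_, rfl⟩
    obtain ⟨b3, hb3⟩ : ∃ k : K, k = 12 * K1 N M * g + 3 * K2 M N - 3 * K1 M N := ⟨_, rfl⟩
    have F3 : b1 * v1 ^ 3 + b2 * (v1 * v2) + b3 * v3 = 0 := by
      rw [gu1, gu2, gu3] at X3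
      rw [hb1, hb2, hb3]
      linear_combination X3
    have hdet := EL_det h2 h6 hM hM1 hM2 hM3 k1 k21 k22 g k31 k32 e1 e2 a1 a2 a3 b1 b2 b3
      hk1 hk22 hk21 hg hk32 hk31 he1 he2 ha1 ha2 ha3 hb1 hb2 hb3
    have hd : ((a1 * e2 - a2 * e1) * b3 - a3 * (b1 * e2 - b2 * e1)) * v1 ^ 3 = 0 := by
      linear_combination (e2 * b3) * F2 - (a2 * b3 * v1) * F1 - (a3 * e2) * F3
        + (a3 * b2 * v1) * F1
    rw [hdet] at hd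
    have hden : M ^ 2 * (M + 1) ^ 2 * (M + 2) ^ 2 * (M + 3) ≠ 0 := by
      exact mul_ne_zero (mul_ne_zero (mul_ne_zero (pow_ne_zero 2 hM) (pow_ne_zero 2 hM1))
        (pow_ne_zero 2 hM2)) hM3
    have h7 : -6 * ((N * M - 1) * (M - 1) * (N + 1) * TT N M * v1 ^ 3) = 0 := by
      have h8 := congrArg (fun x => x * (M ^ 2 * (M + 1) ^ 2 * (M + 2) ^ 2 * (M + 3))) hd
      simp only [zero_mul] at h8
      rw [div_mul_eq_mul_div, div_mul_cancel₀ _ hden] at h8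
      linear_combination h8
    rcases mul_eq_zero.1 h7 with h9 | h9
    · exact absurd (neg_eq_zero.1 h9) h6
    · exact h9
  · have hc := ELE_comb (M * (M + 1)) _ _ _ _ _ _ _ _ _ _ _ _ _ _ _ (M + 2) v1 v2 v3 v4
      Q1 Q2 Q4 Q5
    rw [ELE_det N M] at hc
    have hden : (8 : K) * ((M + 2) ^ 2 * (M + 3) * (M + 4)) ≠ 0 :=
      mul_ne_zero h8 (mul_ne_zero (mul_ne_zero (pow_ne_zero 2 hM2) hM3) hM4)
    apply mul_left_cancel₀ hden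
    rw [mul_zero]
    linear_combination -hc

end Pool.Agent.SK
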