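import Pool.Agent.helper77.SK.Spec2
import Pool.Agent.helper14.SK.VI
import Pool.Agent.helper18.SK.CNE
import Pool.Agent.helper28.SK.TCE
import Pool.Agent.helper29.SK.WI
import Pool.Agent.helper3.SK.FV
import Pool.Agent.helper3.SK.SGE
import Pool.Agent.helper35.SK.TC
import Pool.Agent.helper36.SK.FIN2
import Pool.Agent.helper36.SK.FNE
import Pool.Agent.helper37.SK.CONR
import Pool.Agent.helper45.SK.CHE
import Pool.Agent.helper45.SK.N2
import Pool.Agent.helper5.SK.SG
import Pool.Agent.helper64.SK.AR2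
import Pool.Agent.helper69.SK.HP
import Pool.Agent.helper71.SK.PW
import Pool.Agent.helper71.SK.PWE
import Pool.Agent.helper75.SK.LOC
import Pool.Agent.helper77.SK.ARE
import Pool.Agent.helper77.SK.ELE
import Pool.Agent.helper78.SK.LG
import Pool.Agent.helper82.SK.FD
import Pool.Agent.helper85.SK.LCE
import Pool.Agent.helper88.SK.P19
import Pool.Agent.helper9.SK.EL
import Pool.Agent.helper94.SK.LB

/-! Project SK: assembly. -/

set_option autoImplicit false

namespace Pool.Agent.SK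

theorem ALL_HP : HP_stmt := HP (FD LG) (FV LG)
theorem ALL_LOC : LOC_stmt := LOC ALL_HP (FV LG) (SG LB) PW
theorem ALL_WI : WI_stmt := WI ALL_LOC TC
theorem ALL_VI : VI_stmt := VI ALL_LOC TC ALL_WI
theorem ALL_CON : CON_stmt := CON ALL_LOC TC ALL_WI ALL_VI EL
theorem ALL_FIN2 : FIN2_stmt := FIN2 ALL_HP ALL_CON AR2 N2 P19
theorem ALL_LCE : LCE_stmt := LCE ALL_HP (FV LG) (SG LB) PW (SGE LB) PWE
theorem ALL_CNE : CNE_stmt := CNE ALL_LCE TC TCE ALL_WI ALL_VI ELE
theorem ALL_FNE : FNE_stmt := FNE ALL_HP ALL_CNE ARE ALL_FIN2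
theorem ALL_CHE : CHE_stmt := CHE ALL_FNE

end Pool.Agent.SK
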