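import Pool.Agent.helper36.SK.FIN2

/-! Row sk:FINM: subgroups of index `m ≥ 3`. -/

set_option autoImplicit false

namespace Pool.Agent.SK

theorem FINM (hHP : HP_stmt) (hCON : CON_stmt) (hARM : ARM_stmt) : FINM_stmt := by
  intro p _ m d A B ε hm hp hlt hA hB hCl
  have hAne : A.Nonempty := Finset.card_pos.1 (by omega)
  have hBne : B.Nonempty := Finset.card_pos.1 (by omega)
  have hd0 : 0 < d := by
    rcases Nat.eq_zero_or_pos d with h | h
    · exfalso
      rw [h] at hp
      have : 3 ^ 8 ≤ m ^ 8 := Nat.pow_le_pow_left hm 8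
      omega
    · exact h
  have hdp : 3 * d + 1 ≤ p := by nlinarith
  have hBd : B.card ≤ d := FIN2_card_le A B d ε hd0 hAne hCl
  have h1 : A.card * B.card ≤ d := (hHP p A B d ε hAne hBne hd0 (by omega) hCl).1
  rcases Nat.lt_or_ge (A.card * B.card) d with h | h
  · exact h
  exfalso
  have hprod : A.card * B.card = d := le_antisymm h1 h
  have c1 := hCON p A B d ε ⟨hCl, hA, hB, hprod, by omega⟩
  have c2 := hCON p B A d _ ⟨FIN2_swap A B d ε hCl, hB, hA, by rw [mul_comm]; exact hprod, by omega⟩
  have := hARM p m A.card B.card hm hA hB (by rw [hprod]; exact hp) c1 c2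
  omega

end Pool.Agent.SK
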