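import Mathlib

/-!
# Project SK (MP_f6e9a2_nt): Sarkozy's conjecture and the equality case of Hanson-Petridis

`A, B ⊆ F_p`, all differences `a - b` in one class `{x : x ^ d = ε}` of a subgroup of order `d`.
Hanson-Petridis: `|A||B| ≤ d`. Here: `|A||B| = d` is impossible (for `d = (p - 1) / 2` up to two
families of examples, and then `A - B` is not the whole class).

Idea. If `N M = d` (`N = |A|`, `M = |B|`) the Stepanov polynomial `FF B d ε` is exactly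
`γ * pol A ^ M`, and the same with the roles of `A`, `B` exchanged. Comparing the Taylor
coefficients of orders `M, ..., M + 3` at every `a ∈ A` (row LOC) gives polynomial identities
between `pol A`, `pol B` (rows WI, VI), which contradict each other (rows EL, CON) unless
`TT N M = 0` (or `L1 N M = L2 N M = 0`) in `F_p`; the same for `TT M N`. Rows AR2, ARM: arithmetic.

Every row is a `Prop` below with its proof in the docstring. File `Pool/Agent/<seat>/SK/<ROW>.lean`,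
import this file, namespace `Pool.Agent.SK`, `theorem <ROW> (h1 : <OTHER>_stmt) ... : <ROW>_stmt`
with hypotheses the rows named after (from ...). Auxiliary lemmas: names starting with the row name.
No `convert`, `congr!`, `native_decide`; no double quotes.
-/

set_option autoImplicit false

namespace Pool.Agent.SK

open Polynomial Finset

section
variable {p : ℕ} [Fact p.Prime]

/-- the monic polynomial with the simple roots `S` -/
noncomputable def pol (S : Finset (ZMod p)) : (ZMod p)[X] := ∏ s ∈ S, (X - C s)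

/-- the weight of `b` -/
noncomputable def cw (B : Finset (ZMod p)) (b : ZMod p) : ZMod p := ∏ b' ∈ B.erase b, (b' - b)⁻¹

/-- the Stepanov polynomial of Hanson and Petridis -/
noncomputable def FF (B : Finset (ZMod p)) (d : ℕ) (ε : ZMod p) : (ZMod p)[X] :=
  ∑ b ∈ B, C (cw B b) * (X - C b) ^ (d + B.card - 1) - C ε

/-- the weighted sum of `(a - b)^(-(i+1))` -/
noncomputable def sg (B : Finset (ZMod p)) (a : ZMod p) (i : ℕ) : ZMod p :=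
  ∑ b ∈ B, cw B b * ((a - b) ^ (i + 1))⁻¹

/-- Taylor coefficient of order `i` at `a` -/
noncomputable def tc (f : (ZMod p)[X]) (a : ZMod p) (i : ℕ) : ZMod p := (taylor a f).coeff i

/-- all differences lie in one class -/
def Cl (A B : Finset (ZMod p)) (d : ℕ) (ε : ZMod p) : Prop :=
  ε ≠ 0 ∧ ∀ a ∈ A, ∀ b ∈ B, (a - b) ^ d = ε

/-- the extremal situation -/
def Ex (A B : Finset (ZMod p)) (d : ℕ) (ε : ZMod p) : Prop :=
  Cl A B d ε ∧ 2 ≤ A.card ∧ 2 ≤ B.card ∧ A.card * B.card = d ∧ 2 * d + 1 ≤ p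

/-- first, second, third, fourth derivative -/
noncomputable def D1 (f : (ZMod p)[X]) : (ZMod p)[X] := derivative f
noncomputable def D2 (f : (ZMod p)[X]) : (ZMod p)[X] := derivative (derivative f)
noncomputable def D3 (f : (ZMod p)[X]) : (ZMod p)[X] := derivative (derivative (derivative f))
noncomputable def D4 (f : (ZMod p)[X]) : (ZMod p)[X] :=
  derivative (derivative (derivative (derivative f)))

end

/-- `34` terms -/
def TT {K : Type*} [CommRing K] (N M : K) : K :=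
  18 * N ^ 5 * M ^ 6 + 30 * N ^ 5 * M ^ 5 + 12 * N ^ 5 * M ^ 4 + 42 * N ^ 4 * M ^ 6
  - 25 * N ^ 4 * M ^ 5 - 188 * N ^ 4 * M ^ 4 - 161 * N ^ 4 * M ^ 3 - 64 * N ^ 4 * M ^ 2
  - 12 * N ^ 4 * M + 35 * N ^ 3 * M ^ 6 - 111 * N ^ 3 * M ^ 5 - 210 * N ^ 3 * M ^ 4
  + 83 * N ^ 3 * M ^ 3 + 139 * N ^ 3 * M ^ 2 + 64 * N ^ 3 * M + 12 * N ^ 3 + 13 * N ^ 2 * M ^ 6
  - 83 * N ^ 2 * M ^ 5 - 44 * N ^ 2 * M ^ 4 + 193 * N ^ 2 * M ^ 3 + 13 * N ^ 2 * M ^ 2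
  - 32 * N ^ 2 * M - 12 * N ^ 2 + 2 * N * M ^ 6 - 23 * N * M ^ 5 + 12 * N * M ^ 4
  + 69 * N * M ^ 3 - 56 * N * M ^ 2 - 4 * N * M - 2 * M ^ 5 + 4 * M ^ 4 + 6 * M ^ 3
  - 16 * M ^ 2 + 8 * M

def L1 {K : Type*} [CommRing K] (N M : K) : K :=
  3 * N ^ 2 * M ^ 4 - N ^ 2 * M ^ 3 - 2 * N ^ 2 * M ^ 2 + 2 * N * M ^ 4 - 6 * N * M ^ 3
  + 4 * N * M - 2 * M ^ 3 + 3 * M ^ 2 + M - 2

def L2 {K : Type*} [CommRing K] (N M : K) : K :=
  - 3 * N ^ 2 * M ^ 2 + N ^ 2 * M + 2 * N ^ 2 - 2 * N * M ^ 2 + 6 * N * M + 2 * N + 2 * M - 2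

/-- the necessary condition on the side of `A` (`N = |A|`, `M = |B|`) -/
def Cond {K : Type*} [CommRing K] (N M : K) : Prop :=
  TT N M = 0 ∨ (L1 N M = 0 ∧ L2 N M = 0)

/-- the third order coefficients: `K1 A'''P - K2 A''P' + K3 A'P'' - K4 AP''' = 0` -/
def K1 {K : Type*} [CommRing K] (N M : K) : K := M * (M + 1) * (3 * (N * M) + 4 * M - 1)
def K2 {K : Type*} [CommRing K] (N M : K) : K :=
  3 * (N * M - 3) * (M * (M + 1)) + 6 * (N * M - 1) ^ 2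

/-- relations R1, R2, R3 (`u` Taylor data of `pol A`, `v` of `pol B`, `d = N M`) -/
def R1 {K : Type*} [CommRing K] (N M u1 v1 : K) : Prop :=
  M * (M + 1) * u1 = (N * M - 1) * v1
def R2 {K : Type*} [CommRing K] (N M u1 u2 v1 v2 : K) : Prop :=
  (M + 1) * (M + 2) * (2 * M * u2 + M * (M - 1) * u1 ^ 2) =
    2 * (N * M - 1) * (N * M - 2) * (v1 ^ 2 - v2)
def R3 {K : Type*} [CommRing K] (N M u1 u2 u3 v1 v2 v3 : K) : Prop :=
  (M + 1) * (M + 2) * (M + 3) * (6 * M * u3 + 6 * M * (M - 1) * u1 * u2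
    + M * (M - 1) * (M - 2) * u1 ^ 3) =
    6 * (N * M - 1) * (N * M - 2) * (N * M - 3) * (v1 ^ 3 - 2 * v1 * v2 + v3)

/-! ## Rows -/

/-- ROW sk:TC. `taylor_coeff`, `hasseDeriv`, `factorial_smul_hasseDeriv`. -/
def TC_stmt : Prop := ∀ (p : ℕ) [Fact p.Prime] (f : (ZMod p)[X]) (a : ZMod p),
  f.eval a = tc f a 0 ∧ (D1 f).eval a = tc f a 1 ∧ (D2 f).eval a = 2 * tc f a 2 ∧
    (D3 f).eval a = 6 * tc f a 3 ∧ (D4 f).eval a = 24 * tc f a 4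

/-- ROW sk:LG. Lagrange: `Q = ∑_b Q(b) L_b`, the coefficient of `L_b = ∏ (X - b')/(b - b')` at
`|B| - 1` is `∏ (b - b')⁻¹ = (-1)^(|B|-1) cw B b` (Mathlib: `Lagrange.interpolate`,
`Lagrange.eq_interpolate_of_eval_eq`, or `Lagrange.coeff_eq_sum`). -/
def LG_stmt : Prop := ∀ (p : ℕ) [Fact p.Prime] (B : Finset (ZMod p)) (Q : (ZMod p)[X]),
  B.Nonempty → Q.degree < (B.card : WithBot ℕ) →
    ∑ b ∈ B, cw B b * Q.eval b = (-1) ^ (B.card - 1) * Q.coeff (B.card - 1)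

/-- ROW sk:LB. `Lagrange.sum_basis` (the sum of the Lagrange basis polynomials is 1). -/
def LB_stmt : Prop := ∀ (p : ℕ) [Fact p.Prime] (B : Finset (ZMod p)), B.Nonempty →
  ∑ b ∈ B, C (cw B b) * ∏ b' ∈ B.erase b, (X - C b') = C ((-1 : ZMod p) ^ (B.card - 1))

/-- ROW sk:FD (from LG). Let `n = d + |B| - 1`. The coefficient of `X^k` in `FF + C ε` is
`n.choose k * ∑ cw b * (-b)^(n-k)`. For `k > d` use LG with `Q = (-X)^(n-k)`, of degree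
`< |B| - 1`: it is 0. For `k = d`, `Q = (-X)^(|B|-1)`: the sum is `(-1)^(|B|-1) (-1)^(|B|-1) = 1`.
(`1 ≤ d`, so `C ε` does not matter.) -/
def FD_stmt : Prop := ∀ (p : ℕ) [Fact p.Prime] (B : Finset (ZMod p)) (d : ℕ) (ε : ZMod p),
  B.Nonempty → 1 ≤ d → (FF B d ε).natDegree ≤ d ∧
    (FF B d ε).coeff d = (((d + B.card - 1).choose d : ℕ) : ZMod p)

/-- ROW sk:FV (from LG). `taylor a ((X - C b)^n) = (X + C (a - b))^n`, `n = d + |B| - 1`, has the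
coefficient `n.choose j * (a - b)^(n-j)` at `j`. If `j ≤ |B| - 1`: `(a-b)^(n-j) = ε (a-b)^(|B|-1-j)`
and LG with `Q = (C a - X)^(|B|-1-j)` gives 0 for `j ≥ 1` and `ε - ε = 0` for `j = 0`. If
`j = |B| + i`, `i < d`: `n - j = d - 1 - i` and `(a-b)^(d-1-i) = ε ((a-b)^(i+1))⁻¹`. -/
def FV_stmt : Prop := ∀ (p : ℕ) [Fact p.Prime] (A B : Finset (ZMod p)) (d : ℕ) (ε : ZMod p),
  B.Nonempty → 1 ≤ d → Cl A B d ε → ∀ a ∈ A,
    (∀ j < B.card, tc (FF B d ε) a j = 0) ∧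
    ∀ i < d, tc (FF B d ε) a (B.card + i) =
      ε * (((d + B.card - 1).choose (B.card + i) : ℕ) : ZMod p) * sg B a i

/-- ROW sk:HP (from FD, FV). By FV `(X - C a)^|B|` divides `FF` for every `a ∈ A`, so
`pol A ^ |B|` divides `FF` (pairwise coprime). `FF ≠ 0` of degree `d` since its coefficient at `d`
is `(d+|B|-1).choose d`, not divisible by `p` (`d + |B| - 1 < p`). Compare degrees and leading
coefficients. -/
def HP_stmt : Prop := ∀ (p : ℕ) [Fact p.Prime] (A B : Finset (ZMod p)) (d : ℕ) (ε : ZMod p),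
  A.Nonempty → B.Nonempty → 1 ≤ d → d + B.card ≤ p → Cl A B d ε →
    A.card * B.card ≤ d ∧ (((d + B.card - 1).choose d : ℕ) : ZMod p) ≠ 0 ∧
    (A.card * B.card = d →
      FF B d ε = C (((d + B.card - 1).choose d : ℕ) : ZMod p) * pol A ^ B.card)

/-- ROW sk:SG (from LB). Apply `taylor a` to LB: with `y_b = a - b`, `P_i = tc (pol B) a i` and
`R_b = ∏_{b' ≠ b} (X + C y_b')` (coefficients `r_(b,i)`): `taylor a (pol B) = (X + C y_b) R_b`, so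
`r_(b,0) = P_0 y_b⁻¹`, `r_(b,i) = (P_i - r_(b,i-1)) y_b⁻¹`, i.e.
`r_(b,i) = ∑_(j ≤ i) (-1)^j P_(i-j) y_b^(-(j+1))`; multiply by `cw B b` and sum over `b`. -/
def SG_stmt : Prop := ∀ (p : ℕ) [Fact p.Prime] (B : Finset (ZMod p)) (a : ZMod p),
  B.Nonempty → (∀ b ∈ B, a - b ≠ 0) →
    tc (pol B) a 0 ≠ 0 ∧
    tc (pol B) a 0 * sg B a 0 = (-1) ^ (B.card - 1) ∧
    tc (pol B) a 1 * sg B a 0 - tc (pol B) a 0 * sg B a 1 = 0 ∧
    tc (pol B) a 2 * sg B a 0 - tc (pol B) a 1 * sg B a 1 + tc (pol B) a 0 * sg B a 2 = 0 ∧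
    tc (pol B) a 3 * sg B a 0 - tc (pol B) a 2 * sg B a 1 + tc (pol B) a 1 * sg B a 2
      - tc (pol B) a 0 * sg B a 3 = 0

/-- ROW sk:PW. `f = X * S`, `f ^ M = X ^ M * S ^ M`, and `S * (S ^ M)' = M * S' * S ^ M`; compare
the coefficients at 0, 1, 2. -/
def PW_stmt : Prop := ∀ (R : Type) [CommRing R] (f : R[X]) (M : ℕ), f.coeff 0 = 0 →
  (f ^ M).coeff M = f.coeff 1 ^ M ∧
  f.coeff 1 * (f ^ M).coeff (M + 1) = M * f.coeff 2 * (f ^ M).coeff M ∧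
  2 * f.coeff 1 * (f ^ M).coeff (M + 2) + f.coeff 2 * (f ^ M).coeff (M + 1) =
    M * (f.coeff 2 * (f ^ M).coeff (M + 1) + 2 * f.coeff 3 * (f ^ M).coeff M) ∧
  3 * f.coeff 1 * (f ^ M).coeff (M + 3) + 2 * f.coeff 2 * (f ^ M).coeff (M + 2)
      + f.coeff 3 * (f ^ M).coeff (M + 1) =
    M * (f.coeff 2 * (f ^ M).coeff (M + 2) + 2 * f.coeff 3 * (f ^ M).coeff (M + 1)
      + 3 * f.coeff 4 * (f ^ M).coeff M)

/-- ROW sk:LOC (from HP, FV, SG, PW). Let `f = taylor a (pol A)`, `α_i = f.coeff (i+1)`,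
`P_i = tc (pol B) a i`, `σ_i = sg B a i`, `s_i = (f^M).coeff (M+i)`,
`c_i = (d+M-1).choose (M+i)`, `γ = (d+M-1).choose d = c_0 * M / d`. HP and FV:
`γ s_i = ε c_i σ_i`, `i ≤ 3 < d`. `α_0 ≠ 0` (simple root), `P_0 ≠ 0`, `σ_0 ≠ 0` (SG), `s_0 = α_0^M`.
Also `(M+i+1) c_(i+1) = (d-1-i) c_i`. Put `u_i = α_i/α_0`, `v_i = P_i/P_0`. SG: `σ_1 = v_1 σ_0`,
`σ_2 = (v_1^2 - v_2) σ_0`, `σ_3 = (v_1^3 - 2 v_1 v_2 + v_3) σ_0`. PW: `s_1 = M u_1 s_0`,
`2 s_2 = (2 M u_2 + M(M-1) u_1^2) s_0`,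
`6 s_3 = (6 M u_3 + 6 M(M-1) u_1 u_2 + M(M-1)(M-2) u_1^3) s_0`. So
`(M+1) γ s_1 = ε (M+1) c_1 σ_1 = (d-1) ε c_0 σ_0 v_1 = (d-1) v_1 γ s_0`: R1 (`γ s_0 ≠ 0`); and
`(M+1)(M+2) γ s_2 = (d-1)(d-2)(v_1^2 - v_2) γ s_0`: R2; the same with order 3: R3
(`d = N M` in `ZMod p`). -/
def LOC_stmt : Prop := ∀ (p : ℕ) [Fact p.Prime] (A B : Finset (ZMod p)) (d : ℕ) (ε : ZMod p),
  Ex A B d ε → ∀ a ∈ A, ∃ α P u1 u2 u3 v1 v2 v3 : ZMod p, α ≠ 0 ∧ P ≠ 0 ∧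
    tc (pol A) a 0 = 0 ∧ tc (pol A) a 1 = α ∧ tc (pol A) a 2 = α * u1 ∧
    tc (pol A) a 3 = α * u2 ∧ tc (pol A) a 4 = α * u3 ∧
    tc (pol B) a 0 = P ∧ tc (pol B) a 1 = P * v1 ∧ tc (pol B) a 2 = P * v2 ∧
    tc (pol B) a 3 = P * v3 ∧
    R1 (A.card : ZMod p) B.card u1 v1 ∧ R2 (A.card : ZMod p) B.card u1 u2 v1 v2 ∧
    R3 (A.card : ZMod p) B.card u1 u2 u3 v1 v2 v3

/-- ROW sk:WI (from LOC, TC). `N = |A|`, `M = |B|`. Let `W` be the left side. At `a ∈ A`: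
`W(a) = 2 α P (M(M+1) u1 - (NM-1) v1) = 0` by R1. `Ex B A d ((-1)^d ε)` holds too, and `W` is
symmetric, so `W(b) = 0` for `b ∈ B`. `A`, `B` are disjoint (`a - b ≠ 0`), so `W` has `N + M` roots
and degree `≤ N + M - 2`: `W = 0`. -/
def WI_stmt : Prop := ∀ (p : ℕ) [Fact p.Prime] (A B : Finset (ZMod p)) (d : ℕ) (ε : ZMod p),
  Ex A B d ε →
    C ((B.card : ZMod p) * (B.card + 1)) * (D2 (pol A) * pol B)
      - C (2 * ((A.card : ZMod p) * B.card - 1)) * (D1 (pol A) * D1 (pol B))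
      + C ((A.card : ZMod p) * (A.card + 1)) * (pol A * D2 (pol B)) = 0

/-- ROW sk:VI (from LOC, TC, WI). As WI: let `V` be the left side (antisymmetric under the exchange
of `A`, `B`), degree `≤ N + M - 3`. At `a ∈ A`: the derivative of WI gives (divide by `2 α P`)
E1: `3 M(M+1) u2 + (M(M+1) - 2(NM-1)) u1 v1 + (N(N+1) - 2(NM-1)) v2 = 0`, and
`V(a) = α P (6 K1 u2 - 2 K2 u1 v1 + 2 K2(M,N) v2) = 6 (NM - 3) α P * (left side of E1)` by R1, R2: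
in fact `M (M+1)(M+2)` times the difference is a combination of R1, R2 (`M, M+1, M+2 ≠ 0` in
`ZMod p` since `M + 3 ≤ p`); solve R1 for `u1`, R2 for `u2`, then `ring`. -/
def VI_stmt : Prop := ∀ (p : ℕ) [Fact p.Prime] (A B : Finset (ZMod p)) (d : ℕ) (ε : ZMod p),
  Ex A B d ε →
    C (K1 (A.card : ZMod p) B.card) * (D3 (pol A) * pol B)
      - C (K2 (A.card : ZMod p) B.card) * (D2 (pol A) * D1 (pol B))
      + C (K2 (B.card : ZMod p) A.card) * (D1 (pol A) * D2 (pol B))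
      - C (K1 (B.card : ZMod p) A.card) * (pol A * D3 (pol B)) = 0

/-- ROW sk:EL (pure algebra). The hypotheses E1, E2, E3 are WI', WI'', VI' at `a` divided by
`2 α P`, `4 α P`, `2 α P`. Solve R1, R2, R3 for `u1, u2, u3` (`M, M+1, M+2, M+3, 2, 3 ≠ 0`):
`u1 = (NM-1) v1 / (M(M+1))`, `u2 = k21 v1^2 + k22 v2`, `u3 = k31 v1^3 + k32 v1 v2 + k33 v3`. Then E1
is the first conclusion (up to the factor `2 M (M+1)(M+2)`). E2, E3 become
`a1 v1^3 + a2 v1 v2 + a3 v3 = 0`, `b1 v1^3 + b2 v1 v2 + b3 v3 = 0`; multiply by `e2 = L2/(M+2)` and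
replace `e2 v2` by `- e1 v1^2`, `e1 = L1/(2M(M+1)(M+2))`: `(a1 e2 - a2 e1) v1^3 + a3 e2 v3 = 0` and
the same for `b`; eliminate `v3`. The determinant is
`(a1 e2 - a2 e1) b3 e2 - a3 e2 (b1 e2 - b2 e1) =
-6 (NM-1)(M-1)(N+1) L2 TT / (M^2 (M+1)^2 (M+2)^3 (M+3))`; it kills `v1^3`
(checked by computer algebra with `a_i`, `b_i` as printed by
`E2 = a1 v1^3 + ..`, `E3 = b1 v1^3 + ..`). -/
def EL_stmt : Prop := ∀ (K : Type) [Field K] (N M u1 u2 u3 v1 v2 v3 : K),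
  (2 : K) ≠ 0 → (3 : K) ≠ 0 → M ≠ 0 → M + 1 ≠ 0 → M + 2 ≠ 0 → M + 3 ≠ 0 →
  R1 N M u1 v1 → R2 N M u1 u2 v1 v2 → R3 N M u1 u2 u3 v1 v2 v3 →
  3 * (M * (M + 1)) * u2 + (M * (M + 1) - 2 * (N * M - 1)) * (u1 * v1)
    + (N * (N + 1) - 2 * (N * M - 1)) * v2 = 0 →
  M * (M + 1) * (6 * u3 + 3 * u2 * v1 + u1 * v2)
    - (N * M - 1) * (3 * u2 * v1 + 4 * u1 * v2 + 3 * v3)
    + N * (N + 1) * (u1 * v2 + 3 * v3) = 0 →
  K1 N M * (12 * u3 + 3 * u2 * v1) - K2 N M * (3 * u2 * v1 + 2 * u1 * v2)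
    + K2 M N * (2 * u1 * v2 + 3 * v3) - K1 M N * (3 * v3) = 0 →
  L1 N M * v1 ^ 2 + 2 * M * (M + 1) * L2 N M * v2 = 0 ∧
    (N * M - 1) * (M - 1) * (N + 1) * L2 N M * TT N M * v1 ^ 3 = 0

/-- ROW sk:CON (from LOC, TC, WI, VI, EL). Suppose not. `D1` of WI, of that again, and `D1` of VI,
evaluated at `a ∈ A` (TC, LOC) are the hypotheses of EL. `NM - 1`, `M - 1`, `N + 1` are nonzero in
`ZMod p`. If `L2 ≠ 0` then `TT ≠ 0` and `v1 = 0`; if `L2 = 0` then `L1 ≠ 0` and `v1 = 0`. By R1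
`u1 = 0`, so `D2 (pol A)` vanishes on `A`; its degree is `≤ N - 2 < N`, so it is 0, but its
coefficient at `N - 2` is `N (N - 1) ≠ 0`. -/
def CON_stmt : Prop := ∀ (p : ℕ) [Fact p.Prime] (A B : Finset (ZMod p)) (d : ℕ) (ε : ZMod p),
  Ex A B d ε → Cond (A.card : ZMod p) B.card

/-- ROW sk:AR2 (arithmetic). In `ZMod p`, with `x = M`, `2 N x = -1`, so `N = -1/(2x)`.
`L1 = 0` and `L2 = 0` become (up to units) `(x-1)(4x+3)(x-2) = 0` and `(x-2)(4x-1)(3x+1) = 0`; for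
`p > 5` both only if `x = 2` (`1, -3/4` are not `1/4, -1/3`), so `M = 2`: excluded. Hence
`TT N M = 0` and `TT M N = 0`: up to powers of `2 x` these are `g x = 0`, `h x = 0` with
`g = 16x^8-100x^7+134x^6+240x^5-578x^4+95x^3+191x^2+80x+12`,
`h = 384x^8-1280x^7+1528x^6-380x^5-1156x^4-240x^3+67x^2+25x+2`, and
`u g + v h = 455715000 (4x^2-7x-2)` for
`u = -127862304x^5+443793320x^4-683347348x^3+394336040x^2+148620452x-97306625`,
`v = 5327596x^5-34030210x^4+54029174x^3+51444080x^2-196019587x+128124750`;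
`455715000 = 2^3 3^2 5^4 13 19 41`, `4x^2-7x-2 = (x-2)(4x+1)`; `4x+1 = 0` means `N = 2`. So
`p` is 13 (`N M = 6`, no), 19 (`N = M = 3`) or 41 (`N M = 20`: one of `TT 4 5`, `TT 5 4` is not 0
modulo 41; check both orders) (also `p = 2, 3, 5` are impossible as `p ≥ 19`). -/
def AR2_stmt : Prop := ∀ (p : ℕ) [Fact p.Prime] (N M : ℕ), 3 ≤ N → 3 ≤ M → 2 * (N * M) + 1 = p →
  Cond (N : ZMod p) M → Cond (M : ZMod p) N → p = 19 ∧ N = 3 ∧ M = 3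

/-- ROW sk:N2 (independent of the other rows). Let `n = 2 |B|`, `p = 2 n + 1`, so `2 n = -1` and
`ε = ±1`; `G = {x : x ^ n = ε}` has `n` elements. `A = {a1, a2}`, `δ = a2 - a1 ≠ 0`,
`D = {a1 - b}`, `|D| = n / 2`, and `G = D ∪ (D + δ)`, so the union is disjoint. For `x ∈ D`:
`x + δ ∈ G`; for `x ∈ D + δ`: `x - δ ∈ G`. Let `J = #{x ∈ G : x + δ ∈ G} ≥ n / 2`.
Power sums: `∑_(x ∈ G) x^k = n ε^(k/n)` if `n ∣ k`, otherwise 0 (multiply `x` by a generator of the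
group of order `n`, or: `G = {c t^2}`). In `ZMod p`:
`2 J = ∑_(x ∈ G, x ≠ -δ) (1 + ε (x+δ)^n) = (n - [-δ ∈ G]) + ε n (δ^n + ε)` (binomial theorem).
If `δ^n = ε` this is `-3/2 - [..] = n - 1 - [..]`, impossible for `n ≤ 2J ≤ 2n`; so `δ^n = -ε`,
`2 J = n - [..]` in `ZMod p`, hence `[..] = 0`, `2 J = n`, `(-δ)^n = -ε`, `(-1)^n = 1`, and every
`x ∈ G` has exactly one of `x ± δ` in `G` (`∑_x ([x+δ ∈ G] + [x-δ ∈ G]) = 2 J = n`, each term
`≥ 1`), the other is not 0, so `(x^2 - δ^2)^n = -1` for all `x ∈ G`. Sum of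
`x^(n-2j) ((x^2-δ^2)^n + 1)`, `j = 1, 2`, over `x ∈ G` (here `n ≥ 4` is even; `n = 4` gives `p = 9`,
so `n ≥ 6`): only the terms `x^(2i)` with `2i + n - 2j ∈ {n, 2n}` (`i = j`, `i = j + n/2`) and
nothing else survive: `C(n,j) (-δ^2)^(n-j) + C(n,j+n/2) (-δ^2)^(n/2-j) ε = 0`, that is
`C(n,j) (-δ^2)^(n/2) + ε C(n,n/2-j) = 0`, `j = 1, 2`. Divide:
`C(n,2) C(n,n/2-1) = C(n,1) C(n,n/2-2)`, and `C(n,n/2-2) (n/2+2) = C(n,n/2-1) (n/2-1)`, so
`(n-1)(n+4) = 2(n-2)`, `n (n+1) = 0` in `ZMod p`: contradiction (`0 < n < n + 1 < p`). -/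
def N2_stmt : Prop := ∀ (p : ℕ) [Fact p.Prime] (A B : Finset (ZMod p)) (ε : ZMod p),
  A.card = 2 → 2 ≤ B.card → 2 * (2 * B.card) + 1 = p → Cl A B (2 * B.card) ε →
    ¬ ∀ x : ZMod p, x ^ (2 * B.card) = ε → ∃ a ∈ A, ∃ b ∈ B, x = a - b

/-- ROW sk:P19 (finite check). Translate: `0 ∈ A` (replace `A` by `A - a`, `B` by `B - a`), so
`A = {0, a2, a3}`. Let `S` be the set of ALL `b` with `(0-b)^9 = (a2-b)^9 = (a3-b)^9 = ε`;
`B ⊆ S`, so `A - S` would be the whole class too. Check by `decide` (or `decide +kernel`) for all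
`a2, a3` and `ε = 1, -1` that `A - S` is not the whole class (by computer: if `S` has 3
elements then `A - S` has 6 elements, otherwise less than 9). -/
def P19_stmt : Prop := ∀ [Fact (Nat.Prime 19)] (A B : Finset (ZMod 19)) (ε : ZMod 19),
  A.card = 3 → B.card = 3 → Cl A B 9 ε →
    ¬ ∀ x : ZMod 19, x ^ 9 = ε → ∃ a ∈ A, ∃ b ∈ B, x = a - b

/-- ROW sk:FIN2 (from HP, CON, AR2, N2, P19). First part: HP (`|B| ≤ d` because `Cl` with one
`a ∈ A` embeds `B` in the class, or: if `d + |B| > p` replace ... `|B| ≤ (p-1)/2` since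
`a - B` consists of roots of `X^d - ε`). Second: CON for `(A, B, ε)` and for
`(B, A, (-1)^d ε)`, then AR2. Third: `ε` is 1 or -1, the class has exactly `(p-1)/2` elements and
is contained in the image of `A × B`, so `|A||B| = (p-1)/2`; then `|A| = 2` (N2), `|B| = 2` (N2 with
the roles exchanged, class `(-1)^d ε`), or P19. -/
def FIN2_stmt : Prop := ∀ (p : ℕ) [Fact p.Prime] (A B : Finset (ZMod p)) (ε : ZMod p),
  p ≠ 2 → 2 ≤ A.card → 2 ≤ B.card → Cl A B ((p - 1) / 2) ε →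
    A.card * B.card ≤ (p - 1) / 2 ∧
    (A.card * B.card = (p - 1) / 2 →
      A.card = 2 ∨ B.card = 2 ∨ (p = 19 ∧ A.card = 3 ∧ B.card = 3)) ∧
    ¬ ∀ x : ZMod p, x ^ ((p - 1) / 2) = ε → ∃ a ∈ A, ∃ b ∈ B, x = a - b

/-- ROW sk:ARM (arithmetic, helper77). -/
def ARM_stmt : Prop := ∀ (p : ℕ) [Fact p.Prime] (m N M : ℕ), 3 ≤ m → 2 ≤ N → 2 ≤ M →
  m * (N * M) + 1 = p → Cond (N : ZMod p) M → Cond (M : ZMod p) N → p ≤ 600 * m ^ 8

/-- ROW sk:FINM (from HP, CON, ARM; helper77). -/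
def FINM_stmt : Prop := ∀ (p : ℕ) [Fact p.Prime] (m d : ℕ) (A B : Finset (ZMod p)) (ε : ZMod p),
  3 ≤ m → m * d + 1 = p → 600 * m ^ 8 < p → 2 ≤ A.card → 2 ≤ B.card → Cl A B d ε →
    A.card * B.card < d

end Pool.Agent.SK
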