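import Pool.Agent.helper77.SK.Spec

/-!
# Project SK, phase 2 (MP_f6e9a2_nt): all proper subgroups, all primes

One more Taylor order (`M + 4`, it needs `5 ≤ d`) gives a second necessary condition `M5 N M = 0`
besides `TT N M = 0`, and together (for `(N, M)` and `(M, N)`) they have no solution but the known
ones: equality `|A||B| = d` holds only if `d = 4`, or `d = (p - 1) / 2` and `|A| = 2` or `|B| = 2`,
or `p = 19, d = 9`.

Every row is a `Prop` below with its proof in the docstring. File `Pool/Agent/<seat>/SK/<ROW>.lean`,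
import this file, namespace `Pool.Agent.SK`, `theorem <ROW> (h1 : <OTHER>_stmt) ... : <ROW>_stmt`
with hypotheses the rows named after (from ...). Auxiliary lemmas: names starting with the row name.
No `convert`, `congr!`, `native_decide`; no double quotes.
-/

set_option autoImplicit false

namespace Pool.Agent.SK

open Polynomial Finset

/-- relation of order 4 -/
def R4 {K : Type*} [CommRing K] (N M u1 u2 u3 u4 v1 v2 v3 v4 : K) : Prop :=
  (M + 1) * (M + 2) * (M + 3) * (M + 4) * (24 * M * u4 + 24 * M * (M - 1) * u1 * u3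
    + 12 * M * (M - 1) * u2 ^ 2 + 12 * M * (M - 1) * (M - 2) * u1 ^ 2 * u2
    + M * (M - 1) * (M - 2) * (M - 3) * u1 ^ 4) =
  24 * (N * M - 1) * (N * M - 2) * (N * M - 3) * (N * M - 4)
    * (v1 ^ 4 - 3 * v1 ^ 2 * v2 + v2 ^ 2 + 2 * v1 * v3 - v4)

/-- Horner evaluation -/
def hor {K : Type*} [CommRing K] (l : List ℤ) (x : K) : K :=
  l.foldr (fun (a : ℤ) (r : K) => (a : K) + x * r) 0

def hor2 {K : Type*} [CommRing K] (l : List (List ℤ)) (x y : K) : K :=
  l.foldr (fun (a : List ℤ) (r : K) => hor a y + x * r) 0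

/-- the second condition -/
def M5 {K : Type*} [CommRing K] (N M : K) : K :=
  hor2
    [[0, -5472, 17200, -12472, -11268, 17284, -2642, -3952, 1200, 156, -26, -8],
    [0, 9360, 55768, -178188, 64030, 161474, -114973, -23902, 29786, -2564, -795, -20, 24],
    [6912, 16464, -128520, -354052, 844322, 116380, -789138, 165769, 181013, -60229, 57, 864,
      182, -24],
    [-15552, -105024, -195544, 643904, 1663994, -1953030, -1538585, 1521147, 263277, -340088,
      53193, 2267, 233, -200, 8],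
    [1728, 97824, 574168, 1177824, -1151438, -4757676, 1260502, 3711440, -898067, -732322,
      301054, -24474, -15, -676, 64],
    [10368, 52176, -100344, -1324336, -3515030, -700599, 6513564, 2036330, -3304230, -206037,
      666629, -152867, 8509, -1343, 218],
    [-1728, -51648, -279584, -491364, 796916, 4451695, 3817971, -3402431, -2902318, 1420344,
      494453, -338727, 48228, -3173, 398],
    [-1728, -10224, 26232, 320652, 949506, 669520, -2039071, -3067152, 709151, 1622548,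
      -328292, -297775, 103494, -9289, 484],
    [0, 3456, 23904, 49872, -46480, -423700, -551550, 550940, 1328600, 31972, -588311, 600,
      96236, -16976, 653],
    [0, 0, -1728, -11952, -31776, -19216, 102588, 191787, -110356, -407872, -99084, 131228,
      23863, -15099, 945],
    [0, 0, 0, 0, 0, 288, -2904, -24276, -45390, 8319, 77337, 34293, -13857, -4740, 810],
    [0, 0, 0, 0, 0, 0, 120, 700, 3070, 5805, 365, -8095, -4665, 630, 270],
    [0, 0, 0, 0, 0, 0, 0, 0, 0, -120, -360, -150, 360, 270]]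
    N M

def MX {K : Type*} [CommRing K] (s c : K) : K :=
  hor2
    [[0, -14752, 145152, -556566, 1092532, -1123673, 519691, -137506, 158866, -120881, 46227,
      -9630, 540],
    [-5472, 96264, -507348, 1104355, -768103, -727074, 1160615, -134457, -340573, 220910,
      -66177, 7650, -270],
    [17200, -146112, 286688, 507884, -2440551, 2699757, -478607, -777959, 608072, -217194,
      35358, -1800],
    [-12472, -15474, 581488, -1919329, 2014878, 172324, -1496700, 1125386, -449466, 96607,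
      -8520, 270],
    [-11268, 176412, -641404, 554628, 815880, -1683672, 1265563, -561300, 148651, -18364, 810],
    [17284, -89533, -13127, 610132, -1034680, 819710, -404425, 127110, -19880, 945],
    [-2642, -32302, 198233, -341047, 290281, -158362, 59421, -12075, 653],
    [-3952, 28538, -54157, 47145, -27202, 14205, -4917, 484],
    [1200, -2330, 237, 629, 1785, -1919, 398],
    [156, -715, 624, 473, -756, 218],
    [-26, -20, 182, -200, 64],
    [-8, 24, -24, 8]]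
    s c

def MY {K : Type*} [CommRing K] (s c : K) : K :=
  hor2
    [[5472, -36224, 117798, -208345, 82062, 428946, -764271, 468473, -98304, -1952, 7515, -1170],
    [-10288, 47172, -48816, -344580, 1455951, -2085248, 1082122, 23494, -204405, 96508, -18660,
      990],
    [-3080, 54542, -393355, 1309412, -1778543, 468014, 830801, -770459, 334170, -77815, 7575,
      -270],
    [12996, -112954, 442842, -546939, -461927, 1372007, -1112675, 506097, -137372, 17711, -810],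
    [-6916, 52205, -10227, -494265, 954391, -793046, 391812, -122629, 19396, -945],
    [914, 20878, -171947, 328898, -291274, 156977, -57630, 11677, -653],
    [2224, -25238, 53160, -47817, 26777, -13465, 4699, -484],
    [-1200, 2356, -217, -811, -1585, 1855, -398],
    [-156, 723, -648, -449, 748, -218],
    [26, 20, -182, 200, -64],
    [8, -24, 24, -8]]
    s c

/-! ## Rows -/

/-- ROW sk:PWE. As row PW (`Pool/Agent/helper71/SK/PW.lean`), the coefficient at 3. -/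
def PWE_stmt : Prop := ∀ (R : Type) [CommRing R] (f : R[X]) (M : ℕ), f.coeff 0 = 0 →
  4 * f.coeff 1 * (f ^ M).coeff (M + 4) + 3 * f.coeff 2 * (f ^ M).coeff (M + 3)
      + 2 * f.coeff 3 * (f ^ M).coeff (M + 2) + f.coeff 4 * (f ^ M).coeff (M + 1) =
    M * (f.coeff 2 * (f ^ M).coeff (M + 3) + 2 * f.coeff 3 * (f ^ M).coeff (M + 2)
      + 3 * f.coeff 4 * (f ^ M).coeff (M + 1) + 4 * f.coeff 5 * (f ^ M).coeff M)

/-- ROW sk:SGE (from LB). As row SG, one more coefficient. -/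
def SGE_stmt : Prop := ∀ (p : ℕ) [Fact p.Prime] (B : Finset (ZMod p)) (a : ZMod p),
  B.Nonempty → (∀ b ∈ B, a - b ≠ 0) →
    tc (pol B) a 4 * sg B a 0 - tc (pol B) a 3 * sg B a 1 + tc (pol B) a 2 * sg B a 2
      - tc (pol B) a 1 * sg B a 3 + tc (pol B) a 0 * sg B a 4 = 0

/-- ROW sk:LCE (from HP, FV, SG, PW, SGE, PWE). As row LOC
(`Pool/Agent/helper75/SK/LOC.lean`), with one more order: `i = 4 < d`. New:
`σ_4 = (v1^4 - 3 v1^2 v2 + v2^2 + 2 v1 v3 - v4) σ_0`,
`24 s_4 = (24 M u4 + 24 M(M-1) u1 u3 + 12 M(M-1) u2^2 + 12 M(M-1)(M-2) u1^2 u2 +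
M(M-1)(M-2)(M-3) u1^4) s_0`,
`(M+1)(M+2)(M+3)(M+4) γ s_4 = (d-1)(d-2)(d-3)(d-4) (..) γ s_0`. -/
def LCE_stmt : Prop := ∀ (p : ℕ) [Fact p.Prime] (A B : Finset (ZMod p)) (d : ℕ) (ε : ZMod p),
  Ex A B d ε → 5 ≤ d → ∀ a ∈ A, ∃ α P u1 u2 u3 u4 v1 v2 v3 v4 : ZMod p, α ≠ 0 ∧ P ≠ 0 ∧
    tc (pol A) a 0 = 0 ∧ tc (pol A) a 1 = α ∧ tc (pol A) a 2 = α * u1 ∧
    tc (pol A) a 3 = α * u2 ∧ tc (pol A) a 4 = α * u3 ∧ tc (pol A) a 5 = α * u4 ∧
    tc (pol B) a 0 = P ∧ tc (pol B) a 1 = P * v1 ∧ tc (pol B) a 2 = P * v2 ∧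
    tc (pol B) a 3 = P * v3 ∧ tc (pol B) a 4 = P * v4 ∧
    R1 (A.card : ZMod p) B.card u1 v1 ∧ R2 (A.card : ZMod p) B.card u1 u2 v1 v2 ∧
    R3 (A.card : ZMod p) B.card u1 u2 u3 v1 v2 v3 ∧
    R4 (A.card : ZMod p) B.card u1 u2 u3 u4 v1 v2 v3 v4

/-- ROW sk:TCE. As row TC (`Pool/Agent/helper35/SK/TC.lean`): fifth derivative. -/
def TCE_stmt : Prop := ∀ (p : ℕ) [Fact p.Prime] (f : (ZMod p)[X]) (a : ZMod p),
  (derivative (D4 f)).eval a = 120 * tc f a 5

/-- ROW sk:ELE (pure algebra; helper77). The hypotheses are the ones of EL, the third derivative of WI at `a` divided by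
`12 α P` and the second derivative of VI at `a` divided by `12 α P`. -/
def ELE_stmt : Prop := ∀ (K : Type) [Field K] (N M u1 u2 u3 u4 v1 v2 v3 v4 : K),
  (2 : K) ≠ 0 → (3 : K) ≠ 0 → M ≠ 0 → M + 1 ≠ 0 → M + 2 ≠ 0 → M + 3 ≠ 0 → M + 4 ≠ 0 →
  R1 N M u1 v1 → R2 N M u1 u2 v1 v2 → R3 N M u1 u2 u3 v1 v2 v3 →
  R4 N M u1 u2 u3 u4 v1 v2 v3 v4 →
  3 * (M * (M + 1)) * u2 + (M * (M + 1) - 2 * (N * M - 1)) * (u1 * v1)
    + (N * (N + 1) - 2 * (N * M - 1)) * v2 = 0 →
  M * (M + 1) * (6 * u3 + 3 * u2 * v1 + u1 * v2)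
    - (N * M - 1) * (3 * u2 * v1 + 4 * u1 * v2 + 3 * v3)
    + N * (N + 1) * (u1 * v2 + 3 * v3) = 0 →
  K1 N M * (12 * u3 + 3 * u2 * v1) - K2 N M * (3 * u2 * v1 + 2 * u1 * v2)
    + K2 M N * (2 * u1 * v2 + 3 * v3) - K1 M N * (3 * v3) = 0 →
  M * (M + 1) * (10 * u4 + 6 * u3 * v1 + 3 * u2 * v2 + u1 * v3)
    - 2 * (N * M - 1) * (2 * u3 * v1 + 3 * u2 * v2 + 3 * u1 * v3 + 2 * v4)
    + N * (N + 1) * (u2 * v2 + 3 * u1 * v3 + 6 * v4) = 0 →
  K1 N M * (10 * u4 + 4 * u3 * v1 + u2 * v2) - K2 N M * (2 * u3 * v1 + 2 * u2 * v2 + u1 * v3)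
    + K2 M N * (u2 * v2 + 2 * u1 * v3 + 2 * v4) - K1 M N * (u1 * v3 + 4 * v4) = 0 →
  (N * M - 1) * (M - 1) * (N + 1) * TT N M * v1 ^ 3 = 0 ∧
    (N * M - 1) * (M - 1) * (N + 1) * M5 N M * v1 ^ 4 = 0

/-- ROW sk:CNE (from LCE, TC, TCE, WI, VI, ELE). As row CON (`Pool/Agent/helper37/SK/CONR.lean`):
choose `a ∈ A` with `D2 (pol A)` not 0 at `a`, so `v1 ≠ 0`. Evaluate at `a` the derivatives `WI'`,
`WI''`, the third derivative of WI, `VI'`, `VI''` (divide by `2 α P`, `4 α P`, `12 α P`, `2 α P`, `12 α P`). -/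
def CNE_stmt : Prop := ∀ (p : ℕ) [Fact p.Prime] (A B : Finset (ZMod p)) (d : ℕ) (ε : ZMod p),
  Ex A B d ε → 5 ≤ d →
    TT (A.card : ZMod p) B.card = 0 ∧ M5 (A.card : ZMod p) B.card = 0

/-- ROW sk:ARE (arithmetic; helper77). -/
def ARE_stmt : Prop := ∀ (p : ℕ) [Fact p.Prime] (m N M : ℕ), 3 ≤ m → 2 ≤ N → 2 ≤ M → 5 ≤ N * M →
  m * (N * M) + 1 = p → TT (N : ZMod p) M = 0 → M5 (N : ZMod p) M = 0 →
  TT (M : ZMod p) N = 0 → M5 (M : ZMod p) N = 0 → False

/-- ROW sk:FNE (from HP, CNE, ARE, FIN2). As `Pool/Agent/helper77/SK/FINM.lean`. If `m = 2`: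
FIN2. If `3 ≤ m` and `|A||B| = d`, `d ≠ 4`: `5 ≤ d`, CNE for `(A, B, ε)` and for
`(B, A, (-1)^d ε)`, then ARE. Last part: `ε = (a - b)^d`, so the class `{x : x ^ d = ε}` is a coset
of the subgroup of order `d` (`d ∣ p - 1`) and has `d` elements; if `A - B` is the whole class then
`d ≤ |A||B|`. -/
def FNE_stmt : Prop := ∀ (p : ℕ) [Fact p.Prime] (m d : ℕ) (A B : Finset (ZMod p)) (ε : ZMod p),
  2 ≤ m → m * d + 1 = p → 2 ≤ A.card → 2 ≤ B.card → Cl A B d ε →
    A.card * B.card ≤ d ∧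
    (A.card * B.card = d →
      d = 4 ∨ (m = 2 ∧ (A.card = 2 ∨ B.card = 2)) ∨ (p = 19 ∧ d = 9)) ∧
    (d ≠ 4 → ¬ ∀ x : ZMod p, x ^ d = ε → ∃ a ∈ A, ∃ b ∈ B, x = a - b)

/-- ROW sk:CHE (from FNE). The statement for the character sums of the problem. Let
`m = orderOf χ ≥ 2` (`χ ≠ 1`), `m ∣ p - 1` (`χ ^ (p - 1) = 1`), `d = (p - 1) / m`. The norm of a sum
of `|A||B|` complex numbers of absolute value `≤ 1` is `|A||B|`: all the terms are equal to one
`z` with `|z| = 1` (so `a + b ≠ 0`). If `χ x = χ y ≠ 0` then `x ^ d = y ^ d`: write `x / y = g ^ k`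
with a generator `g` of the units; `χ (g) ^ k = 1`, the order of `χ g` is `m`
(`χ ^ j = 1` iff `χ g ^ j = 1`), so `m ∣ k`, `(x/y)^d = g ^ (k d) = 1`. Conversely `x ^ d = y ^ d`,
`y ≠ 0`, gives `χ x = χ y` (`x / y = g ^ k`, `p - 1 ∣ k d`, `m ∣ k`). Apply FNE to
`A`, `-B` (`B.image Neg.neg`) and `ε = (a + b) ^ d`. -/
def CHE_stmt : Prop := ∀ (p : ℕ) [Fact p.Prime] (χ : MulChar (ZMod p) ℂ) (A B : Finset (ZMod p)),
  χ ≠ 1 → 2 ≤ A.card → 2 ≤ B.card →
    ‖∑ a ∈ A, ∑ b ∈ B, χ (a + b)‖ = A.card * B.card →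
    A.card * B.card * orderOf χ ≤ p - 1 ∧
    (A.card * B.card * orderOf χ = p - 1 →
      A.card * B.card = 4 ∨ (orderOf χ = 2 ∧ (A.card = 2 ∨ B.card = 2)) ∨
        (p = 19 ∧ orderOf χ = 2 ∧ A.card = 3 ∧ B.card = 3)) ∧
    (4 * orderOf χ ≠ p - 1 → ∀ z : ℂ, z ≠ 0 →
      ¬ ∀ x : ZMod p, χ x = z ↔ ∃ a ∈ A, ∃ b ∈ B, x = a + b)

end Pool.Agent.SK
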